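import Pool.Agent.UHI.Stmts

/-!
# Lagrange interpolation (LAGV, LAGC, LAGA)
-/

namespace Pool.Agent.UHI

open Polynomial

namespace LAGaux

/-- spacing of the nodes -/
lemma spaced (n : ℕ) (m : ℝ) (hm : 0 < m) (a : ℕ → ℤ)
    (h : ∀ i < n, (a i : ℝ) + m ≤ a (i + 1)) :
    ∀ d i : ℕ, i + (d + 1) ≤ n → (a i : ℝ) + m ≤ a (i + (d + 1)) := by
  intro d
  induction d with
  | zero => intro i hi; exact h i (by omega)
  | succ d ih =>
    intro i hi
    have h1 := ih i (by omega)
    have h2 := h (i + (d + 1)) (by omega)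
    have h3 : i + (d + 1) + 1 = i + (d + 1 + 1) := by ring
    rw [h3] at h2
    linarith

lemma sep (n : ℕ) (m : ℝ) (hm : 0 < m) (a : ℕ → ℤ)
    (h : ∀ i < n, (a i : ℝ) + m ≤ a (i + 1)) (i j : ℕ) (hi : i ≤ n) (hj : j ≤ n) (hij : i ≠ j) :
    m ≤ |(a i : ℝ) - a j| := by
  rcases lt_or_gt_of_ne hij with h1 | h1
  · obtain ⟨d, rfl⟩ := Nat.exists_eq_add_of_lt h1
    have h2 := spaced n m hm a h d i (by omega)
    have h3 : i + d + 1 = i + (d + 1) := by ring
    rw [h3, abs_sub_comm]
    exact le_trans (by linarith) (le_abs_self _)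
  · obtain ⟨d, rfl⟩ := Nat.exists_eq_add_of_lt h1
    have h2 := spaced n m hm a h d j (by omega)
    have h3 : j + d + 1 = j + (d + 1) := by ring
    rw [h3]
    exact le_trans (by linarith) (le_abs_self _)

/-- the interpolation formula -/
lemma formula (n : ℕ) (H : ℝ[X]) (m : ℝ) (hm : 0 < m) (a : ℕ → ℤ) (hd : H.natDegree ≤ n)
    (h : ∀ i < n, (a i : ℝ) + m ≤ a (i + 1)) :
    H = ∑ i ∈ Finset.range (n + 1), C (H.eval (a i : ℝ)) *
      ∏ j ∈ (Finset.range (n + 1)).erase i, Lagrange.basisDivisor (a i : ℝ) (a j : ℝ) := by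
  have hinj : Set.InjOn (fun i : ℕ => (a i : ℝ)) (Finset.range (n + 1) : Set ℕ) := by
    intro i hi j hj hij
    by_contra hne
    have h1 := sep n m hm a h i j (by simpa [Nat.lt_succ_iff] using hi)
      (by simpa [Nat.lt_succ_iff] using hj) hne
    simp only at hij
    rw [hij, sub_self, abs_zero] at h1
    linarith
  have hdeg : H.degree < (Finset.range (n + 1)).card := by
    rw [Finset.card_range]
    refine lt_of_le_of_lt Polynomial.degree_le_natDegree ?_
    exact_mod_cast Nat.lt_succ_of_le hd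
  have h2 := Lagrange.eq_interpolate (f := H) hinj hdeg
  rw [Lagrange.interpolate_apply] at h2
  exact h2

lemma card_erase (n i : ℕ) (hi : i ∈ Finset.range (n + 1)) :
    ((Finset.range (n + 1)).erase i).card = n := by
  rw [Finset.card_erase_of_mem hi, Finset.card_range]
  rfl

/-- coefficients of the product of the basis divisors -/
lemma coeff_le (x A : ℝ) (v : ℕ → ℝ) (hA : 0 ≤ A) :
    ∀ (t : Finset ℕ), (∀ j ∈ t, 1 ≤ |x - v j|) → (∀ j ∈ t, |v j| ≤ A) →
      ∀ k, |(∏ j ∈ t, Lagrange.basisDivisor x (v j)).coeff k| ≤ (1 + A) ^ t.card := by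
  intro t
  induction t using Finset.induction_on with
  | empty =>
    intro _ _ k
    rw [Finset.prod_empty, Polynomial.coeff_one]
    split_ifs <;> simp
  | insert j t hj ih =>
    intro h1 h2 k
    rw [Finset.prod_insert hj, Finset.card_insert_of_notMem hj, pow_succ]
    have ih' := ih (fun i hi => h1 i (Finset.mem_insert_of_mem hi))
      (fun i hi => h2 i (Finset.mem_insert_of_mem hi))
    set P := ∏ i ∈ t, Lagrange.basisDivisor x (v i) with hP
    have hx := h1 j (Finset.mem_insert_self j t)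
    have hv := h2 j (Finset.mem_insert_self j t)
    have hc : |(x - v j)⁻¹| ≤ 1 := by
      rw [abs_inv]
      exact inv_le_one_of_one_le₀ hx
    have h3 : (Lagrange.basisDivisor x (v j) * P).coeff k =
        (x - v j)⁻¹ * ((X * P).coeff k - v j * P.coeff k) := by
      unfold Lagrange.basisDivisor
      rw [mul_assoc, Polynomial.coeff_C_mul, sub_mul, Polynomial.coeff_sub, Polynomial.coeff_C_mul]
    have h4 : |(X * P).coeff k| ≤ (1 + A) ^ t.card := by
      cases k with
      | zero =>
        rw [Polynomial.coeff_X_mul_zero, abs_zero]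
        positivity
      | succ k => rw [Polynomial.coeff_X_mul]; exact ih' k
    rw [h3, abs_mul]
    have h5 : |(X * P).coeff k - v j * P.coeff k| ≤ (1 + A) ^ t.card * (1 + A) := by
      have h6 : |(X * P).coeff k - v j * P.coeff k| ≤ |(X * P).coeff k| + |v j * P.coeff k| :=
        abs_sub _ _
      have h7 : |v j * P.coeff k| ≤ A * (1 + A) ^ t.card := by
        rw [abs_mul]
        exact mul_le_mul hv (ih' k) (abs_nonneg _) hA
      nlinarith
    calc |(x - v j)⁻¹| * |(X * P).coeff k - v j * P.coeff k|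
        ≤ 1 * ((1 + A) ^ t.card * (1 + A)) :=
          mul_le_mul hc h5 (abs_nonneg _) zero_le_one
      _ = _ := one_mul _

end LAGaux

theorem m_LAGV : Stmt_LAGV := by
  intro n H B m W x a hd hm hs hB hW
  have hB0 : 0 ≤ B := le_trans (abs_nonneg _) (hB 0 (Nat.zero_le n))
  have hW0 : 0 ≤ W := le_trans (abs_nonneg _) (hW 0 (Nat.zero_le n))
  have hF := LAGaux.formula n H m hm a hd hs
  have h1 : H.eval x = ∑ i ∈ Finset.range (n + 1), H.eval (a i : ℝ) *
      ∏ j ∈ (Finset.range (n + 1)).erase i, (((a i : ℝ) - a j)⁻¹ * (x - a j)) := by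
    conv_lhs => rw [hF]
    rw [Polynomial.eval_finsetSum]
    refine Finset.sum_congr rfl (fun i _ => ?_)
    rw [Polynomial.eval_mul, Polynomial.eval_C, Polynomial.eval_prod]
    congr 1
    refine Finset.prod_congr rfl (fun j _ => ?_)
    unfold Lagrange.basisDivisor
    simp
  rw [h1]
  refine le_trans (Finset.abs_sum_le_sum_abs _ _) ?_
  have h2 : ∀ i ∈ Finset.range (n + 1), |H.eval (a i : ℝ) *
      ∏ j ∈ (Finset.range (n + 1)).erase i, (((a i : ℝ) - a j)⁻¹ * (x - a j))|
        ≤ B * (W / m) ^ n := by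
    intro i hi
    have hi' : i ≤ n := by simpa [Nat.lt_succ_iff] using hi
    rw [abs_mul]
    refine mul_le_mul (hB i hi') ?_ (abs_nonneg _) hB0
    rw [Finset.abs_prod]
    calc ∏ j ∈ (Finset.range (n + 1)).erase i, |((a i : ℝ) - a j)⁻¹ * (x - a j)|
        ≤ ∏ _j ∈ (Finset.range (n + 1)).erase i, (W / m) := by
          refine Finset.prod_le_prod (fun _ _ => abs_nonneg _) (fun j hj => ?_)
          have hj1 : j ≠ i := Finset.ne_of_mem_erase hj
          have hj2 : j ≤ n := by
            have := Finset.mem_of_mem_erase hj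
            simpa [Nat.lt_succ_iff] using this
          have hsep := LAGaux.sep n m hm a hs i j hi' hj2 hj1.symm
          rw [abs_mul, abs_inv, div_eq_inv_mul]
          refine mul_le_mul ?_ (hW j hj2) (abs_nonneg _) (by positivity)
          exact inv_anti₀ hm hsep
      _ = (W / m) ^ n := by rw [Finset.prod_const, LAGaux.card_erase n i hi]
  refine le_trans (Finset.sum_le_sum h2) ?_
  rw [Finset.sum_const, Finset.card_range, nsmul_eq_mul]
  push_cast
  exact le_of_eq (by ring)

theorem m_LAGC : Stmt_LAGC := by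
  intro n H B m a hd hm hs hB
  have hB0 : 0 ≤ B := le_trans (abs_nonneg _) (hB 0 (Nat.zero_le n))
  have hF := LAGaux.formula n H m hm a hd hs
  have h1 : H.coeff n = ∑ i ∈ Finset.range (n + 1), H.eval (a i : ℝ) *
      ∏ j ∈ (Finset.range (n + 1)).erase i, ((a i : ℝ) - a j)⁻¹ := by
    conv_lhs => rw [hF]
    rw [Polynomial.finsetSum_coeff]
    refine Finset.sum_congr rfl (fun i hi => ?_)
    rw [Polynomial.coeff_C_mul]
    congr 1
    have h2 := Polynomial.coeff_prod_of_natDegree_le
      (s := (Finset.range (n + 1)).erase i)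
      (fun j => Lagrange.basisDivisor (a i : ℝ) (a j : ℝ)) 1 (fun j _ => by
        unfold Lagrange.basisDivisor
        refine le_trans (Polynomial.natDegree_C_mul_le _ _) ?_
        rw [Polynomial.natDegree_X_sub_C])
    rw [LAGaux.card_erase n i hi, mul_one] at h2
    rw [h2]
    refine Finset.prod_congr rfl (fun j _ => ?_)
    unfold Lagrange.basisDivisor
    rw [Polynomial.coeff_C_mul, Polynomial.coeff_sub, Polynomial.coeff_X_one, Polynomial.coeff_C]
    simp
  rw [h1]
  refine le_trans (Finset.abs_sum_le_sum_abs _ _) ?_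
  have h2 : ∀ i ∈ Finset.range (n + 1), |H.eval (a i : ℝ) *
      ∏ j ∈ (Finset.range (n + 1)).erase i, ((a i : ℝ) - a j)⁻¹| ≤ B * (m⁻¹) ^ n := by
    intro i hi
    have hi' : i ≤ n := by simpa [Nat.lt_succ_iff] using hi
    rw [abs_mul]
    refine mul_le_mul (hB i hi') ?_ (abs_nonneg _) hB0
    rw [Finset.abs_prod]
    calc ∏ j ∈ (Finset.range (n + 1)).erase i, |((a i : ℝ) - a j)⁻¹|
        ≤ ∏ _j ∈ (Finset.range (n + 1)).erase i, (m⁻¹) := by
          refine Finset.prod_le_prod (fun _ _ => abs_nonneg _) (fun j hj => ?_)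
          have hj1 : j ≠ i := Finset.ne_of_mem_erase hj
          have hj2 : j ≤ n := by
            have := Finset.mem_of_mem_erase hj
            simpa [Nat.lt_succ_iff] using this
          have hsep := LAGaux.sep n m hm a hs i j hi' hj2 hj1.symm
          rw [abs_inv]
          exact inv_anti₀ hm hsep
      _ = (m⁻¹) ^ n := by rw [Finset.prod_const, LAGaux.card_erase n i hi]
  refine le_trans (Finset.sum_le_sum h2) ?_
  rw [Finset.sum_const, Finset.card_range, nsmul_eq_mul]
  push_cast
  rw [inv_pow]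
  exact le_of_eq (by ring)

theorem m_LAGA : Stmt_LAGA := by
  intro n H B A a hd hs hB hA k
  have hB0 : 0 ≤ B := le_trans (abs_nonneg _) (hB 0 (Nat.zero_le n))
  have hA0 : 0 ≤ A := le_trans (abs_nonneg _) (hA 0 (Nat.zero_le n))
  have hs' : ∀ i < n, (a i : ℝ) + 1 ≤ a (i + 1) := by
    intro i hi
    exact_mod_cast hs i hi
  have hF := LAGaux.formula n H 1 one_pos a hd hs'
  have h1 : H.coeff k = ∑ i ∈ Finset.range (n + 1), H.eval (a i : ℝ) *
      (∏ j ∈ (Finset.range (n + 1)).erase i,
        Lagrange.basisDivisor (a i : ℝ) (a j : ℝ)).coeff k := by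
    conv_lhs => rw [hF]
    rw [Polynomial.finsetSum_coeff]
    refine Finset.sum_congr rfl (fun i hi => ?_)
    rw [Polynomial.coeff_C_mul]
  rw [h1]
  refine le_trans (Finset.abs_sum_le_sum_abs _ _) ?_
  have h2 : ∀ i ∈ Finset.range (n + 1), |H.eval (a i : ℝ) *
      (∏ j ∈ (Finset.range (n + 1)).erase i,
        Lagrange.basisDivisor (a i : ℝ) (a j : ℝ)).coeff k| ≤ B * (1 + A) ^ n := by
    intro i hi
    have hi' : i ≤ n := by simpa [Nat.lt_succ_iff] using hi
    rw [abs_mul]
    refine mul_le_mul (hB i hi') ?_ (abs_nonneg _) hB0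
    have h3 := LAGaux.coeff_le (a i : ℝ) A (fun j => (a j : ℝ)) hA0
      ((Finset.range (n + 1)).erase i) (fun j hj => by
        have hj1 : j ≠ i := Finset.ne_of_mem_erase hj
        have hj2 : j ≤ n := by
          have := Finset.mem_of_mem_erase hj
          simpa [Nat.lt_succ_iff] using this
        exact LAGaux.sep n 1 one_pos a hs' i j hi' hj2 hj1.symm) (fun j hj => by
        have hj2 : j ≤ n := by
          have := Finset.mem_of_mem_erase hj
          simpa [Nat.lt_succ_iff] using this
        exact hA j hj2) k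
    rw [LAGaux.card_erase n i hi] at h3
    exact h3
  refine le_trans (Finset.sum_le_sum h2) ?_
  rw [Finset.sum_const, Finset.card_range, nsmul_eq_mul]
  push_cast
  exact le_of_eq (by ring)

end Pool.Agent.UHI
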