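import Pool.Agent.UHI.Stmts

/-!
# SPR: well spaced points of a finite set of integers
-/

namespace Pool.Agent.UHI

namespace SPRaux

/-- a strictly increasing integer sequence of finite length grows at least linearly -/
lemma gap {k : ℕ} (f : Fin k → ℤ) (hf : StrictMono f) :
    ∀ (d i : ℕ) (h : i + d < k), f ⟨i, by omega⟩ + (d : ℤ) ≤ f ⟨i + d, h⟩ := by
  intro d
  induction d with
  | zero => intro i h; simp
  | succ d ih =>
    intro i h
    have h1 := ih i (by omega)
    have h2 : f ⟨i + d, by omega⟩ < f ⟨i + (d + 1), h⟩ := hf (by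
      rw [Fin.mk_lt_mk]; omega)
    push_cast
    linarith [Int.add_one_le_iff.mpr h2]

end SPRaux

theorem m_SPR : Stmt_SPR := by
  intro n m T hT
  have key : ∀ i ≤ n, i * m < T.card := by
    intro i hi
    have : i * m ≤ n * m := Nat.mul_le_mul_right m hi
    omega
  refine ⟨fun i => if h : i * m < T.card then T.orderEmbOfFin rfl ⟨i * m, h⟩ else 0, ?_, ?_⟩
  · intro i hi
    simp only [dif_pos (key i hi)]
    exact Finset.orderEmbOfFin_mem T rfl _
  · intro i hi
    simp only [dif_pos (key i hi.le), dif_pos (key (i + 1) hi)]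
    have h := SPRaux.gap (fun j => T.orderEmbOfFin rfl j)
      (T.orderEmbOfFin rfl).strictMono m (i * m)
      (by have := key (i + 1) hi; rw [Nat.succ_mul] at this; exact this)
    have e : (⟨i * m + m, by have := key (i + 1) hi; rw [Nat.succ_mul] at this; exact this⟩ :
        Fin T.card) = ⟨(i + 1) * m, key (i + 1) hi⟩ := by
      apply Fin.ext
      simp only
      rw [Nat.succ_mul]
    rw [e] at h
    exact h

end Pool.Agent.UHI
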