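import Pool.Agent.UHI.Stmts
import Pool.Agent.Lib_helper91.Div

/-! Module UHI_DIV: the divisor bound in the form used by the inverse theorem. -/

namespace Pool.Agent.UHI

theorem m_DIV : Stmt_DIV := by
  intro C s hC hs
  obtain ⟨L, hL⟩ := exists_nat_ge (2 * C / s)
  have hLpos : (0 : ℝ) < L := lt_of_lt_of_le (by positivity) hL
  have hL0 : 0 < L := by exact_mod_cast hLpos
  obtain ⟨K, hK1, hK⟩ := Lib_helper91.exists_divisor_bound L hL0
  refine ⟨K ^ (2 / s), Real.one_le_rpow hK1 (by positivity), ?_⟩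
  intro A hA R hR1 hR
  have hA1 : 1 ≤ A := le_trans (Real.one_le_rpow hK1 (by positivity)) hA
  have hA0 : 0 < A := by linarith
  have hKA : K ≤ A ^ (s / 2) := by
    have h1 : (K ^ (2 / s)) ^ (s / 2) ≤ A ^ (s / 2) :=
      Real.rpow_le_rpow (by positivity) hA (by positivity)
    rwa [← Real.rpow_mul (by linarith), div_mul_div_comm, mul_comm 2 s,
      div_self (by positivity), Real.rpow_one] at h1
  have hRA : (R : ℝ) ^ ((1 : ℝ) / L) ≤ A ^ (s / 2) := by
    have h1 : (R : ℝ) ^ ((1 : ℝ) / L) ≤ (A ^ C) ^ ((1 : ℝ) / L) :=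
      Real.rpow_le_rpow (by positivity) hR (by positivity)
    rw [← Real.rpow_mul hA0.le] at h1
    refine h1.trans (Real.rpow_le_rpow_of_exponent_le hA1 ?_)
    rw [mul_one_div, div_le_iff₀ hLpos]
    rw [div_le_iff₀ hs] at hL
    nlinarith
  have hR0 : R ≠ 0 := by omega
  calc ((Nat.divisors R).card : ℝ) ≤ K * (R : ℝ) ^ ((1 : ℝ) / L) := hK R hR0
    _ ≤ A ^ (s / 2) * A ^ (s / 2) := mul_le_mul hKA hRA (by positivity) (by positivity)
    _ = A ^ s := by rw [← Real.rpow_add hA0, add_halves]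

end Pool.Agent.UHI
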