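import Pool.Agent.UHI.Stmts

/-!
# CLOSE: many integers in an interval, four of them are close together
-/

set_option autoImplicit false

namespace Pool.Agent.UHI

/-- **CLOSE.** -/
theorem m_CLOSE : Stmt_CLOSE := by
  intro T u L w hL hw hT hcard
  have hw0 : 0 < w := by linarith
  set f : ℤ → ℕ := fun a => ⌊((a : ℝ) - u) / w⌋₊ with hf
  set B : Finset ℕ := Finset.range (⌊L / w⌋₊ + 1) with hB
  have hmaps : ∀ a ∈ T, f a ∈ B := by
    intro a ha
    obtain ⟨_, h2⟩ := hT a ha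
    rw [hB, Finset.mem_range, Nat.lt_succ_iff]
    apply Nat.floor_mono
    gcongr
    linarith
  have hlt : B.card * 3 < T.card := by
    have h1 : (⌊L / w⌋₊ : ℝ) ≤ L / w := Nat.floor_le (by positivity)
    have h2 : ((B.card * 3 : ℕ) : ℝ) < (T.card : ℝ) := by
      rw [hB, Finset.card_range]
      push_cast
      nlinarith
    exact_mod_cast h2
  obtain ⟨b, hb, hlt2⟩ := Finset.exists_lt_card_fiber_of_mul_lt_card_of_maps_to hmaps hlt
  obtain ⟨U, hUs, hUc⟩ := Finset.exists_subset_card_eq (s := T.filter (fun a => f a = b)) (n := 4) (by omega)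
  refine ⟨fun i => U.orderEmbOfFin hUc i, fun i j hij => (U.orderEmbOfFin hUc).strictMono hij, ?_, ?_⟩
  · intro i
    exact (Finset.mem_filter.1 (hUs (U.orderEmbOfFin_mem hUc i))).1
  · have hmem : ∀ i, (U.orderEmbOfFin hUc i) ∈ T ∧ f (U.orderEmbOfFin hUc i) = b := fun i =>
      Finset.mem_filter.1 (hUs (U.orderEmbOfFin_mem hUc i))
    obtain ⟨h0T, h0⟩ := hmem 0
    obtain ⟨h3T, h3⟩ := hmem 3
    have hx0 := (hT _ h0T).1
    have hx3 := (hT _ h3T).1
    simp only [hf] at h0 h3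
    have e0 : (b : ℝ) ≤ (((U.orderEmbOfFin hUc 0 : ℤ) : ℝ) - u) / w := by
      rw [← h0]
      exact Nat.floor_le (div_nonneg (by linarith) hw0.le)
    have e3 : (((U.orderEmbOfFin hUc 3 : ℤ) : ℝ) - u) / w < b + 1 := by
      rw [← h3]
      exact Nat.lt_floor_add_one _
    rw [le_div_iff₀ hw0] at e0
    rw [div_lt_iff₀ hw0] at e3
    show ((U.orderEmbOfFin hUc 3 : ℤ) : ℝ) - ((U.orderEmbOfFin hUc 0 : ℤ) : ℝ) ≤ w
    nlinarith

end Pool.Agent.UHI
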