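import Pool.Agent.UHI.Stmts

/-!
# FIN: leading coefficients
-/

set_option autoImplicit false

namespace Pool.Agent.UHI

open Polynomial

namespace FINaux

/-- division by a power of the spacing -/
theorem shrink {A s m B t c : ℝ} {k : ℕ} (hk : k ≤ 6) (hA : 1 ≤ A) (hs : 0 < s)
    (hm : A ^ (1 - s) / 30 ≤ m) (hbig : 7 * 30 ^ 6 ≤ A ^ (16 * s)) (hB : 0 ≤ B)
    (ht : t ≤ 38 * s) (hc : 0 ≤ c) (hc7 : c ≤ 7) :
    c * (A ^ t * B) / m ^ k ≤ B * A ^ (-(k : ℝ) + 60 * s) := by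
  have hA0 : 0 < A := by linarith
  have hk' : (k : ℝ) ≤ 6 := by exact_mod_cast hk
  have h1 : A ^ ((1 - s) * k) / 30 ^ 6 ≤ m ^ k := by
    calc A ^ ((1 - s) * k) / 30 ^ 6 ≤ A ^ ((1 - s) * k) / 30 ^ k :=
          div_le_div_of_nonneg_left (Real.rpow_nonneg hA0.le _) (by positivity)
            (pow_le_pow_right₀ (by norm_num) hk)
      _ = (A ^ (1 - s) / 30) ^ k := by
          rw [div_pow, ← Real.rpow_natCast (A ^ (1 - s)) k, ← Real.rpow_mul hA0.le]
      _ ≤ m ^ k := pow_le_pow_left₀ (by positivity) hm k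
  have hm0 : 0 < m ^ k := lt_of_lt_of_le (by positivity) h1
  rw [div_le_iff₀ hm0]
  have h2 : 7 * 30 ^ 6 * A ^ (38 * s) ≤ A ^ (-(k : ℝ) + 60 * s) * A ^ ((1 - s) * k) := by
    calc 7 * 30 ^ 6 * A ^ (38 * s) ≤ A ^ (16 * s) * A ^ (38 * s) :=
          mul_le_mul_of_nonneg_right hbig (Real.rpow_nonneg hA0.le _)
      _ = A ^ (54 * s) := by
          rw [← Real.rpow_add hA0]
          congr 1
          ring
      _ ≤ A ^ (-(k : ℝ) + 60 * s + (1 - s) * k) := by
          refine Real.rpow_le_rpow_of_exponent_le hA ?_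
          nlinarith
      _ = _ := Real.rpow_add hA0 _ _
  calc c * (A ^ t * B) ≤ 7 * (A ^ (38 * s) * B) := by
        refine mul_le_mul hc7 ?_ (by positivity) (by norm_num)
        exact mul_le_mul_of_nonneg_right (Real.rpow_le_rpow_of_exponent_le hA ht) hB
    _ = B * (7 * 30 ^ 6 * A ^ (38 * s)) / 30 ^ 6 := by
        field_simp
    _ ≤ B * (A ^ (-(k : ℝ) + 60 * s) * A ^ ((1 - s) * k)) / 30 ^ 6 := by
        gcongr
    _ = B * A ^ (-(k : ℝ) + 60 * s) * (A ^ ((1 - s) * k) / 30 ^ 6) := by ring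
    _ ≤ B * A ^ (-(k : ℝ) + 60 * s) * m ^ k := by
        gcongr

/-- the quadratic form of three polynomials -/
noncomputable def qp (c : Fin 6 → ℤ) (U V W : ℤ[X]) : ℤ[X] :=
  C (c 0) * (U * U) + C (c 1) * (V * V) + C (c 2) * (W * W) + C (c 3) * (U * V) +
    C (c 4) * (U * W) + C (c 5) * (V * W)

theorem qp_eval (c : Fin 6 → ℤ) (U V W : ℤ[X]) (a : ℤ) :
    (qp c U V W).eval a = qf c (U.eval a) (V.eval a) (W.eval a) := by
  unfold qp qf
  simp only [eval_add, eval_mul, eval_C]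
  ring

theorem qp_coeff (c : Fin 6 → ℤ) {U V W : ℤ[X]} {e : ℕ} (hU : U.natDegree ≤ e)
    (hV : V.natDegree ≤ e) (hW : W.natDegree ≤ e) :
    (qp c U V W).coeff (e + e) = qf c (U.coeff e) (V.coeff e) (W.coeff e) := by
  unfold qp qf
  simp only [coeff_add, coeff_C_mul, coeff_mul_add_eq_of_natDegree_le hU hU,
    coeff_mul_add_eq_of_natDegree_le hV hV, coeff_mul_add_eq_of_natDegree_le hW hW,
    coeff_mul_add_eq_of_natDegree_le hU hV, coeff_mul_add_eq_of_natDegree_le hU hW,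
    coeff_mul_add_eq_of_natDegree_le hV hW]
  ring

theorem qp_natDegree (c : Fin 6 → ℤ) {U V W : ℤ[X]} {e : ℕ} (hU : U.natDegree ≤ e)
    (hV : V.natDegree ≤ e) (hW : W.natDegree ≤ e) : (qp c U V W).natDegree ≤ e + e := by
  have h : ∀ (x : ℤ) {P Q : ℤ[X]}, P.natDegree ≤ e → Q.natDegree ≤ e →
      (C x * (P * Q)).natDegree ≤ e + e := by
    intro x P Q hP hQ
    refine (natDegree_C_mul_le _ _).trans ?_
    exact natDegree_mul_le.trans (add_le_add hP hQ)
  unfold qp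
  exact natDegree_add_le_of_degree_le (natDegree_add_le_of_degree_le
    (natDegree_add_le_of_degree_le (natDegree_add_le_of_degree_le
      (natDegree_add_le_of_degree_le (h _ hU hU) (h _ hV hV)) (h _ hW hW)) (h _ hU hV))
      (h _ hU hW)) (h _ hV hW)

theorem qf_smul (c : Fin 6 → ℤ) (g u v w : ℤ) :
    qf c (g * u) (g * v) (g * w) = g ^ 2 * qf c u v w := by
  unfold qf
  ring

end FINaux

open FINaux in
theorem m_FIN : Stmt_SPR → Stmt_LAGC → Stmt_FIN := by
  intro hSPR hLAGC C0 s hC hs hs1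
  refine ⟨max 19600 ((7 * 30 ^ 6 : ℝ) ^ (1 / (16 * s))), le_max_of_le_left (by norm_num), ?_⟩
  intro A θ ρ X ε Δ S j p c hA hD hΔ F G hF hG hP hcard
  have hA1 : (19600 : ℝ) ≤ A := (le_max_left _ _).trans hA
  have hA2 : (7 * 30 ^ 6 : ℝ) ^ (1 / (16 * s)) ≤ A := (le_max_right _ _).trans hA
  have hA0 : 0 < A := by linarith
  have hA1' : 1 ≤ A := by linarith
  have hbig : 7 * 30 ^ 6 ≤ A ^ (16 * s) := by
    calc (7 * 30 ^ 6 : ℝ) = ((7 * 30 ^ 6 : ℝ) ^ (1 / (16 * s))) ^ (16 * s) := by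
          rw [← Real.rpow_mul (by norm_num), one_div_mul_cancel (by positivity), Real.rpow_one]
      _ ≤ A ^ (16 * s) := Real.rpow_le_rpow (by positivity) hA2 (by positivity)
  have hhalf : (140 : ℝ) ≤ A ^ (1 / 2 : ℝ) := by
    calc (140 : ℝ) = (19600 : ℝ) ^ (1 / 2 : ℝ) := by
          rw [show (19600 : ℝ) = 140 ^ (2 : ℝ) by norm_num, ← Real.rpow_mul (by norm_num)]
          norm_num
      _ ≤ _ := Real.rpow_le_rpow (by norm_num) hA1 (by norm_num)
  have h1s : (140 : ℝ) ≤ A ^ (1 - s) :=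
    hhalf.trans (Real.rpow_le_rpow_of_exponent_le hA1' (by linarith))
  set T := gset (A ^ (19 * s)) F G j p S with hT
  -- the points
  have hTmem : ∀ a ∈ T, a ∈ S ∧ ∃ g : ℤ, g ≠ 0 ∧ |(g : ℝ)| ≤ A ^ (19 * s) ∧
      G.eval a = g * j a ∧ F.eval a = g * p a := by
    intro a ha
    rw [hT] at ha
    unfold gset at ha
    exact (@Finset.mem_filter _ _ (Classical.decPred _) _ _).1 ha
  have hTc : (35 : ℝ) ≤ T.card := by linarith
  have hTc' : 35 ≤ T.card := by exact_mod_cast hTc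
  obtain ⟨m0, hm0⟩ : ∃ m0, m0 = (T.card - 1) / 6 := ⟨_, rfl⟩
  have hm0a : 6 * m0 + 1 ≤ T.card := by omega
  have hm0b : T.card ≤ 6 * m0 + 6 := by omega
  obtain ⟨a, ha1, ha2⟩ := hSPR 6 m0 T hm0a
  have hm : A ^ (1 - s) / 30 ≤ (m0 : ℝ) := by
    have h1 : (T.card : ℝ) ≤ 6 * m0 + 6 := by exact_mod_cast hm0b
    linarith
  have hmpos : (0 : ℝ) < m0 := lt_of_lt_of_le (by positivity) hm
  have hsp : ∀ n, n ≤ 6 → ∀ i < n, (a i : ℝ) + (m0 : ℝ) ≤ (a (i + 1) : ℝ) := by
    intro n hn i hi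
    exact_mod_cast ha2 i (by omega)
  -- the degree of `G`
  obtain ⟨d, hd⟩ : ∃ d, d = G.natDegree := ⟨_, rfl⟩
  have hd2 : d ≤ 2 := hd ▸ hG
  have hG0 : G ≠ 0 := by
    rintro rfl
    obtain ⟨haS, g, hg, -, hgG, -⟩ := hTmem _ (ha1 0 (by norm_num))
    rw [eval_zero] at hgG
    have hj := hD.hj1 _ haS
    rcases mul_eq_zero.1 hgG.symm with h | h
    · exact hg h
    · omega
  have hGd : G.coeff d ≠ 0 := by
    rw [hd]
    exact leadingCoeff_ne_zero.2 hG0
  -- real polynomials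
  set φ := Int.castRingHom ℝ with hφ
  have hX0 : 0 < X := lt_of_lt_of_le one_pos hD.hX1
  have hΔ0 : 0 ≤ Δ := (abs_nonneg _).trans (hΔ _ (hTmem _ (ha1 0 (by norm_num))).1)
  have evG : ∀ b : ℤ, (G.map φ).eval (b : ℝ) = ((G.eval b : ℤ) : ℝ) := by
    intro b
    rw [eval_map, show (b : ℝ) = φ b from rfl, eval₂_at_apply]
    rfl
  have evF : ∀ b : ℤ, (F.map φ).eval (b : ℝ) = ((F.eval b : ℤ) : ℝ) := by
    intro b
    rw [eval_map, show (b : ℝ) = φ b from rfl, eval₂_at_apply]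
    rfl
  have hbG : ∀ n, n ≤ 6 → ∀ i ≤ n, |(G.map φ).eval (a i : ℝ)| ≤ A ^ (19 * s) * X := by
    intro n hn i hi
    obtain ⟨haS, g, hg, hgK, hgG, -⟩ := hTmem _ (ha1 i (by omega))
    rw [evG, hgG]
    push_cast
    rw [abs_mul]
    have hj1 : (0 : ℝ) ≤ j (a i) := by
      have := hD.hj1 _ haS
      exact_mod_cast (by omega : (0 : ℤ) ≤ j (a i))
    rw [abs_of_nonneg hj1]
    exact mul_le_mul hgK (hD.hjX _ haS) hj1 (Real.rpow_nonneg hA0.le _)
  set H : ℝ[X] := F.map φ - (C θ * Polynomial.X + C ρ) * G.map φ with hH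
  have hbH : ∀ n, n ≤ 6 → ∀ i ≤ n, |H.eval (a i : ℝ)| ≤ A ^ (19 * s) * ε := by
    intro n hn i hi
    obtain ⟨haS, g, hg, hgK, hgG, hgF⟩ := hTmem _ (ha1 i (by omega))
    have h1 : H.eval (a i : ℝ) = g * ((p (a i) : ℝ) - j (a i) * (θ * a i + ρ)) := by
      rw [hH, eval_sub, eval_mul, evF, evG, hgG, hgF]
      simp only [eval_add, eval_mul, eval_C, eval_X]
      push_cast
      ring
    rw [h1, abs_mul]
    exact mul_le_mul hgK (hD.hap _ haS) (abs_nonneg _) (Real.rpow_nonneg hA0.le _)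
  have hHc : ∀ k, H.coeff (k + 1) = (F.coeff (k + 1) : ℝ) - (θ * G.coeff k + ρ * G.coeff (k + 1)) := by
    intro k
    rw [hH, coeff_sub, add_mul, coeff_add, mul_assoc, coeff_C_mul, coeff_C_mul, coeff_X_mul,
      coeff_map, coeff_map, coeff_map]
    rfl
  -- `ε` is small
  have hε1 : ε ≤ 1 := by
    have h1 := hD.hH
    have h2 : 1 ≤ X ^ (4 / 3 : ℝ) := Real.one_le_rpow hD.hX1 (by norm_num)
    have h3 : 1 ≤ A ^ (1 / 4 : ℝ) := Real.one_le_rpow hA1' (by norm_num)
    calc ε = ε * 1 * 1 := by ring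
      _ ≤ ε * X ^ (4 / 3 : ℝ) * A ^ (1 / 4 : ℝ) := by
          have := hD.hε
          gcongr
      _ ≤ 1 := h1
  have hs60 : A ^ (60 * s) ≤ A ^ (1 / 2 : ℝ) := Real.rpow_le_rpow_of_exponent_le hA1' (by linarith)
  -- the degree of `F`
  have hGk : ∀ k, d < k → G.coeff k = 0 := fun k hk =>
    coeff_eq_zero_of_natDegree_lt (by omega)
  have hFd : F.natDegree ≤ d + 1 := by
    by_contra hcon
    obtain ⟨e, he⟩ : ∃ e, F.natDegree = e + 1 := ⟨F.natDegree - 1, by omega⟩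
    have hde : d < e := by omega
    have he3 : e + 1 ≤ 3 := he ▸ hF
    have hF0 : F ≠ 0 := by
      rintro rfl
      rw [natDegree_zero] at he
      omega
    have hlead : F.coeff (e + 1) ≠ 0 := by
      rw [← he]
      exact leadingCoeff_ne_zero.2 hF0
    have hHd : H.natDegree ≤ e + 1 := by
      rw [natDegree_le_iff_coeff_eq_zero]
      intro k hk
      obtain ⟨k', rfl⟩ : ∃ k', k = k' + 1 := ⟨k - 1, by omega⟩
      rw [hHc, hGk k' (by omega), hGk (k' + 1) (by omega),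
        coeff_eq_zero_of_natDegree_lt (p := F) (by omega)]
      simp
    have h1 := hLAGC (e + 1) H (A ^ (19 * s) * ε) m0 a hHd hmpos (hsp _ (by omega))
      (hbH _ (by omega))
    have h2 : H.coeff (e + 1) = (F.coeff (e + 1) : ℝ) := by
      rw [hHc, hGk e hde, hGk (e + 1) (by omega)]
      simp
    have h3 : (1 : ℝ) ≤ |(F.coeff (e + 1) : ℝ)| := by
      exact_mod_cast Int.one_le_abs hlead
    have he' : ((e + 1 : ℕ) : ℝ) ≤ 3 := by exact_mod_cast he3
    have h4 := shrink (k := e + 1) (B := ε) (t := 19 * s) (c := ((e + 1 : ℕ) : ℝ) + 1) (by omega)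
      hA1' hs hm hbig hD.hε.le (by linarith) (by positivity) (by linarith)
    have h5 : ε * A ^ (-(((e + 1 : ℕ) : ℝ)) + 60 * s) < 1 := by
      have he0 : (1 : ℝ) ≤ ((e + 1 : ℕ) : ℝ) := by
        exact_mod_cast Nat.le_add_left 1 e
      calc ε * A ^ (-(((e + 1 : ℕ) : ℝ)) + 60 * s) ≤ 1 * A ^ (-(1 / 2) : ℝ) := by
            refine mul_le_mul hε1 ?_ (by positivity) (by norm_num)
            exact Real.rpow_le_rpow_of_exponent_le hA1' (by linarith)
        _ < 1 := by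
            rw [one_mul, Real.rpow_neg hA0.le]
            exact inv_lt_one_of_one_lt₀ (by linarith)
    rw [h2] at h1
    linarith
  -- the polynomial `Q`
  have hV : (Polynomial.X * G).natDegree ≤ d + 1 := by
    rw [natDegree_X_mul hG0]
    omega
  have hU : G.natDegree ≤ d + 1 := by omega
  have hQc : (qp c G (Polynomial.X * G) F).coeff (d + 1 + (d + 1)) =
      qf c 0 (G.coeff d) (F.coeff (d + 1)) := by
    rw [qp_coeff c hU hV hFd, hGk (d + 1) (by omega), coeff_X_mul]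
  have hd2' : (d : ℝ) ≤ 2 := by exact_mod_cast hd2
  refine ⟨d, G.coeff d, F.coeff (d + 1), hd2, hGd, ?_, ?_, ?_⟩
  · have h1 := hLAGC d (G.map φ) (A ^ (19 * s) * X) m0 a (natDegree_map_le.trans hd.ge) hmpos
      (hsp _ (by omega)) (hbG _ (by omega))
    have h2 := shrink (k := d) (B := X) (t := 19 * s) (c := (d : ℝ) + 1) (by omega)
      hA1' hs hm hbig hX0.le (by linarith) (by positivity) (by linarith)
    rw [coeff_map] at h1
    exact h1.trans h2
  · have hHd : H.natDegree ≤ d + 1 := by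
      rw [natDegree_le_iff_coeff_eq_zero]
      intro k hk
      obtain ⟨k', rfl⟩ : ∃ k', k = k' + 1 := ⟨k - 1, by omega⟩
      rw [hHc, hGk k' (by omega), hGk (k' + 1) (by omega),
        coeff_eq_zero_of_natDegree_lt (p := F) (by omega)]
      simp
    have h1 := hLAGC (d + 1) H (A ^ (19 * s) * ε) m0 a hHd hmpos (hsp _ (by omega))
      (hbH _ (by omega))
    have h2 := shrink (k := d + 1) (B := ε) (t := 19 * s) (c := ((d + 1 : ℕ) : ℝ) + 1) (by omega)
      hA1' hs hm hbig hD.hε.le (by linarith) (by positivity) (by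
        push_cast
        linarith)
    have h3 : H.coeff (d + 1) = (F.coeff (d + 1) : ℝ) - G.coeff d * θ := by
      rw [hHc, hGk (d + 1) (by omega)]
      push_cast
      ring
    have h4 : -(((d + 1 : ℕ) : ℝ)) + 60 * s = -(d : ℝ) - 1 + 60 * s := by
      push_cast
      ring
    rw [h3] at h1
    rw [h4] at h2
    exact h1.trans h2
  · have h1 := hLAGC (d + 1 + (d + 1)) ((qp c G (Polynomial.X * G) F).map φ)
      (A ^ (38 * s) * Δ) m0 a (natDegree_map_le.trans (qp_natDegree c hU hV hFd)) hmpos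
      (hsp _ (by omega)) (by
        intro i hi
        obtain ⟨haS, g, hg, hgK, hgG, hgF⟩ := hTmem _ (ha1 i (by omega))
        have e1 : ((qp c G (Polynomial.X * G) F).map φ).eval (a i : ℝ) =
            (((qp c G (Polynomial.X * G) F).eval (a i) : ℤ) : ℝ) := by
          rw [eval_map, show ((a i : ℤ) : ℝ) = φ (a i) from rfl, eval₂_at_apply]
          rfl
        have e2 : (qp c G (Polynomial.X * G) F).eval (a i) =
            g ^ 2 * qf c (j (a i)) (a i * j (a i)) (p (a i)) := by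
          rw [qp_eval, eval_mul, eval_X, hgG, hgF, ← qf_smul]
          congr 1
          ring
        rw [e1, e2]
        push_cast
        rw [abs_mul, abs_pow]
        have e3 : |(g : ℝ)| ^ 2 ≤ A ^ (38 * s) := by
          calc |(g : ℝ)| ^ 2 ≤ (A ^ (19 * s)) ^ 2 := pow_le_pow_left₀ (abs_nonneg _) hgK 2
            _ = A ^ (38 * s) := by
                rw [← Real.rpow_natCast (A ^ (19 * s)) 2, ← Real.rpow_mul hA0.le]
                congr 1
                push_cast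
                ring
        exact mul_le_mul e3 (hΔ _ haS) (abs_nonneg _) (Real.rpow_nonneg hA0.le _))
    have h2 := shrink (k := d + 1 + (d + 1)) (B := Δ) (t := 38 * s)
      (c := ((d + 1 + (d + 1) : ℕ) : ℝ) + 1) (by omega)
      hA1' hs hm hbig hΔ0 le_rfl (by positivity) (by
        push_cast
        linarith)
    have h4 : -(((d + 1 + (d + 1) : ℕ) : ℝ)) + 60 * s = -2 * (d : ℝ) - 2 + 60 * s := by
      push_cast
      ring
    rw [coeff_map, hQc] at h1
    rw [h4] at h2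
    exact h1.trans h2

end Pool.Agent.UHI
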