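import Pool.Agent.UHI.Stmts

/-!
# Module GCD: the gcd of `F(a)` and `G(a)` is small for most `a`
-/

set_option autoImplicit false

namespace Pool.Agent.UHI

open Polynomial

namespace GCDaux

theorem thr (C s A1 : ℝ) (hC : 1 ≤ C) (hs : 0 < s) :
    ∃ A0 : ℝ, 1 ≤ A0 ∧ ∀ A : ℝ, A0 ≤ A → A1 ≤ A ∧ 1 ≤ A ∧ (8 : ℝ) ^ 6 ≤ A ^ s ∧ 5 ≤ A ^ (2 * s) ∧
      720 * (A ^ C) ^ 6 ≤ A ^ (7 * C) := by
  refine ⟨max (max A1 720) (((8 : ℝ) ^ 6) ^ (1 / s)), ?_, ?_⟩
  · exact le_trans (by norm_num) (le_trans (le_max_right A1 720) (le_max_left _ _))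
  · intro A hA
    have h1 : A1 ≤ A := le_trans (le_max_left _ _) (le_trans (le_max_left _ _) hA)
    have h2 : (720 : ℝ) ≤ A := le_trans (le_max_right _ _) (le_trans (le_max_left _ _) hA)
    have h3 : ((8 : ℝ) ^ 6) ^ (1 / s) ≤ A := le_trans (le_max_right _ _) hA
    have hA0 : 0 < A := by linarith
    have h4 : (8 : ℝ) ^ 6 ≤ A ^ s := by
      have h5 := Real.rpow_le_rpow (by positivity) h3 hs.le
      rw [← Real.rpow_mul (by positivity), one_div, inv_mul_cancel₀ hs.ne', Real.rpow_one] at h5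
      exact h5
    refine ⟨h1, by linarith, h4, ?_, ?_⟩
    · have h5 : A ^ (2 * s) = (A ^ s) ^ 2 := by
        rw [mul_comm, Real.rpow_mul hA0.le, ← Real.rpow_natCast]
        norm_num
      rw [h5]
      have h6 : (5 : ℝ) ≤ A ^ s := le_trans (by norm_num) h4
      nlinarith
    · have h5 : A ^ (7 * C) = (A ^ C) ^ 7 := by
        rw [mul_comm, Real.rpow_mul hA0.le, ← Real.rpow_natCast]
        norm_num
      rw [h5, pow_succ (A ^ C) 6, mul_comm]
      have h6 : (720 : ℝ) ≤ A ^ C := by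
        calc (720 : ℝ) ≤ A := h2
          _ = A ^ (1 : ℝ) := (Real.rpow_one A).symm
          _ ≤ A ^ C := Real.rpow_le_rpow_of_exponent_le (by linarith) hC
      exact mul_le_mul_of_nonneg_left h6 (by positivity)

theorem vpos (a : Fin 4 → ℤ) (ha : StrictMono a) :
    0 < ∏ i : Fin 4, ∏ l ∈ Finset.Ioi i, (a l - a i) := by
  apply Finset.prod_pos
  intro i _
  apply Finset.prod_pos
  intro l hl
  have h := ha (Finset.mem_Ioi.mp hl)
  omega

theorem vle (a : Fin 4 → ℤ) (ha : StrictMono a) (w : ℝ) (hw : (a 3 : ℝ) - a 0 ≤ w) :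
    ((∏ i : Fin 4, ∏ l ∈ Finset.Ioi i, (a l - a i) : ℤ) : ℝ) ≤ w ^ 6 := by
  have h0 : Finset.Ioi (0 : Fin 4) = {1, 2, 3} := by decide
  have h1 : Finset.Ioi (1 : Fin 4) = {2, 3} := by decide
  have h2 : Finset.Ioi (2 : Fin 4) = {3} := by decide
  have h3 : Finset.Ioi (3 : Fin 4) = ∅ := by decide
  have key : ∀ i l : Fin 4, i < l → (0 : ℝ) ≤ ((a l : ℝ) - a i) ∧ ((a l : ℝ) - a i) ≤ w := by
    intro i l hil
    have e1 : (a i : ℝ) ≤ a l := by exact_mod_cast (ha hil).le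
    have e2 : (a 0 : ℝ) ≤ a i := by exact_mod_cast ha.monotone (Fin.zero_le i)
    have e3 : (a l : ℝ) ≤ a 3 := by exact_mod_cast ha.monotone (Fin.le_last l)
    constructor <;> linarith
  have hw0 : 0 ≤ w := le_trans (key 0 3 (by decide)).1 (key 0 3 (by decide)).2
  rw [Fin.prod_univ_four, h0, h1, h2, h3]
  rw [Finset.prod_insert (by decide), Finset.prod_insert (by decide), Finset.prod_singleton,
    Finset.prod_insert (by decide), Finset.prod_singleton, Finset.prod_singleton,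
    Finset.prod_empty]
  push_cast
  have k01 := key 0 1 (by decide)
  have k02 := key 0 2 (by decide)
  have k03 := key 0 3 (by decide)
  have k12 := key 1 2 (by decide)
  have k13 := key 1 3 (by decide)
  have k23 := key 2 3 (by decide)
  have e : w ^ 6 = (w * (w * w)) * (w * w) * w * 1 := by ring
  rw [e]
  have m3 : ((a 2 : ℝ) - a 0) * ((a 3 : ℝ) - a 0) ≤ w * w := mul_le_mul k02.2 k03.2 k03.1 hw0
  have m3' : (0 : ℝ) ≤ ((a 2 : ℝ) - a 0) * ((a 3 : ℝ) - a 0) := mul_nonneg k02.1 k03.1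
  have m4 : ((a 1 : ℝ) - a 0) * (((a 2 : ℝ) - a 0) * ((a 3 : ℝ) - a 0)) ≤ w * (w * w) :=
    mul_le_mul k01.2 m3 m3' hw0
  have m5 : ((a 2 : ℝ) - a 1) * ((a 3 : ℝ) - a 1) ≤ w * w := mul_le_mul k12.2 k13.2 k13.1 hw0
  have m5' : (0 : ℝ) ≤ ((a 2 : ℝ) - a 1) * ((a 3 : ℝ) - a 1) := mul_nonneg k12.1 k13.1
  have m6 := mul_le_mul m4 m5 m5' (by positivity)
  have m7 := mul_le_mul m6 k23.2 k23.1 (by positivity)
  have m8 := mul_le_mul_of_nonneg_right m7 (show (0 : ℝ) ≤ 1 by norm_num)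
  linarith

end GCDaux

open GCDaux in
theorem m_GCD : Stmt_RES → Stmt_DIV → Stmt_CLOSE → Stmt_VDM → Stmt_GCD := by
  intro hRES hDIV hCLOSE hVDM C s hC hs
  obtain ⟨A1, hA1, hD⟩ := hDIV (7 * C) s (by linarith) hs
  obtain ⟨A0, hA0, hA⟩ := thr C s A1 hC hs
  refine ⟨A0, hA0, ?_⟩
  intro A hAA F G hF hG hP hFc hGc u L T hL hT hg
  obtain ⟨e1, e2, e3, e4, e5⟩ := hA A hAA
  have hApos : 0 < A := by linarith
  by_contra hcon
  rw [not_le] at hcon
  have hB : (1 : ℝ) ≤ A ^ C := Real.one_le_rpow e2 (by linarith)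
  obtain ⟨R, hR1, hR2, hR3⟩ := hRES F G (A ^ C) hF hG hP.1 hB hFc hGc
  have hR4 : (R : ℝ) ≤ A ^ (7 * C) := le_trans hR2 e5
  have hdiv := hD A e1 R hR1 hR4
  -- the map to the divisors
  have hmaps : ∀ a ∈ T, Int.gcd (F.eval a) (G.eval a) ∈ Nat.divisors R := by
    intro a _
    rw [Nat.mem_divisors]
    refine ⟨?_, by omega⟩
    have h := hR3 a (Int.gcd (F.eval a) (G.eval a) : ℤ) (Int.gcd_dvd_left _ _) (Int.gcd_dvd_right _ _)
    exact_mod_cast h
  have hAs : 0 < A ^ s := Real.rpow_pos_of_pos hApos _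
  have hA3 : 0 < A ^ (-(3 * s)) := Real.rpow_pos_of_pos hApos _
  have hA5 : 0 < A ^ (5 * s) := Real.rpow_pos_of_pos hApos _
  have hL0 : 0 < L := lt_of_lt_of_le hA5 hL
  have hmul : A ^ s * (L * A ^ (-(3 * s))) = L * A ^ (-(2 * s)) := by
    have h : A ^ (-(2 * s)) = A ^ s * A ^ (-(3 * s)) := by
      rw [← Real.rpow_add hApos]
      congr 1
      ring
    rw [h]
    ring
  have hsm : (Nat.divisors R).card • (L * A ^ (-(3 * s))) < (T.card : ℝ) := by
    rw [nsmul_eq_mul]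
    calc ((Nat.divisors R).card : ℝ) * (L * A ^ (-(3 * s))) ≤ A ^ s * (L * A ^ (-(3 * s))) :=
          mul_le_mul_of_nonneg_right hdiv (by positivity)
      _ = L * A ^ (-(2 * s)) := hmul
      _ < T.card := hcon
  obtain ⟨m, _, hm⟩ := Finset.exists_lt_card_fiber_of_nsmul_lt_card_of_maps_to hmaps hsm
  set T' := T.filter (fun a => Int.gcd (F.eval a) (G.eval a) = m) with hT'
  have hT'T : ∀ a ∈ T', a ∈ T := fun a ha => (Finset.mem_filter.mp ha).1
  -- four close points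
  have hw : (1 : ℝ) ≤ 8 * A ^ (3 * s) := by
    have : (1 : ℝ) ≤ A ^ (3 * s) := Real.one_le_rpow e2 (by linarith)
    linarith
  have h35 : A ^ (2 * s) ≤ L * A ^ (-(3 * s)) := by
    have h : A ^ (2 * s) = A ^ (5 * s) * A ^ (-(3 * s)) := by
      rw [← Real.rpow_add hApos]
      congr 1
      ring
    rw [h]
    exact mul_le_mul_of_nonneg_right hL hA3.le
  have hclose : 3 * (L / (8 * A ^ (3 * s)) + 1) < (T'.card : ℝ) := by
    have h : L / (8 * A ^ (3 * s)) = L * A ^ (-(3 * s)) / 8 := by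
      rw [Real.rpow_neg hApos.le]
      field_simp
    rw [h]
    refine lt_of_le_of_lt ?_ hm
    linarith
  obtain ⟨a, ha1, ha2, ha3⟩ := hCLOSE T' u L (8 * A ^ (3 * s)) hL0.le hw
    (fun b hb => hT b (hT'T b hb)) hclose
  have hma : ∀ i, Int.gcd (F.eval (a i)) (G.eval (a i)) = m := fun i => (Finset.mem_filter.mp (ha2 i)).2
  have hFd : ∀ i, (m : ℤ) ∣ F.eval (a i) := by
    intro i
    rw [← hma i]
    exact Int.gcd_dvd_left _ _
  have hGd : ∀ i, (m : ℤ) ∣ G.eval (a i) := by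
    intro i
    rw [← hma i]
    exact Int.gcd_dvd_right _ _
  have hV := hP.2 (m : ℤ) (∏ i : Fin 4, ∏ l ∈ Finset.Ioi i, (a l - a i)) (hVDM F m a hF hFd)
    (hVDM G m a hG hGd)
  have hle : (m : ℤ) ≤ ∏ i : Fin 4, ∏ l ∈ Finset.Ioi i, (a l - a i) := Int.le_of_dvd (vpos a ha1) hV
  have hle2 : (m : ℝ) ≤ (8 * A ^ (3 * s)) ^ 6 := by
    refine le_trans ?_ (vle a ha1 _ ha3)
    exact_mod_cast hle
  have hbig : A ^ (19 * s) < (m : ℝ) := by
    have h := hg (a 0) (hT'T _ (ha2 0))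
    rwa [hma 0] at h
  have hfin : (8 * A ^ (3 * s)) ^ 6 ≤ A ^ (19 * s) := by
    have h1 : (A ^ (3 * s)) ^ 6 = A ^ (18 * s) := by
      rw [← Real.rpow_natCast, ← Real.rpow_mul hApos.le]
      congr 1
      push_cast
      ring
    have h2 : A ^ (19 * s) = A ^ s * A ^ (18 * s) := by
      rw [← Real.rpow_add hApos]
      congr 1
      ring
    rw [mul_pow, h1, h2]
    exact mul_le_mul_of_nonneg_right e3 (Real.rpow_pos_of_pos hApos _).le
  linarith

end Pool.Agent.UHI
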