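import Pool.Agent.UHI.Stmts

/-!
# INIT: the relation on a short interval
-/

namespace Pool.Agent.UHI

open Polynomial

namespace INITaux

lemma large (e c : ℝ) (he : 0 < e) : ∃ A0 : ℝ, 1 ≤ A0 ∧ ∀ A : ℝ, A0 ≤ A → c ≤ A ^ e := by
  have h := (tendsto_rpow_atTop he).eventually_ge_atTop c
  obtain ⟨A1, hA1⟩ := Filter.eventually_atTop.1 h
  exact ⟨max 1 A1, le_max_left _ _, fun A hA => hA1 A ((le_max_right _ _).trans hA)⟩

lemma common_zero {F G : ℤ[X]}
    (hc : IsCoprime (F.map (Int.castRingHom ℚ)) (G.map (Int.castRingHom ℚ))) (a : ℤ)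
    (hF : F.eval a = 0) (hG : G.eval a = 0) : False := by
  obtain ⟨u, w, huw⟩ := hc
  have h := congrArg (Polynomial.eval (a : ℚ)) huw
  rw [eval_add, eval_mul, eval_mul, Polynomial.eval_intCast_map, Polynomial.eval_intCast_map,
    Int.cast_id, hF, hG] at h
  simp at h

lemma natDegree_le_of_mul {h F F0 : ℤ[X]} {n : ℕ} (hh : h ≠ 0) (he : F0 = h * F)
    (hd : F0.natDegree ≤ n) : F.natDegree ≤ n := by
  by_cases hF : F = 0
  · rw [hF]; simp
  · rw [he, natDegree_mul hh hF] at hd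
    omega

/-- the error of the approximate relation -/
lemma err {X L θ ρ t g0 g1 g2 f0 f1 f2 f3 : ℝ} (hX : 1 ≤ X) (hL : 1 ≤ L) (ht0 : 0 ≤ t) (ht : t ≤ L)
    (h0 : |f0 - ρ * g0| ≤ 1 / (32 * X))
    (h1 : |f1 - (θ * g0 + ρ * g1)| ≤ 1 / (32 * X * L))
    (h2 : |f2 - (θ * g1 + ρ * g2)| ≤ 1 / (32 * X * L ^ 2))
    (h3 : |f3 - θ * g2| ≤ 1 / (32 * X * L ^ 3)) :
    |(f0 + f1 * t + f2 * t ^ 2 + f3 * t ^ 3) - (θ * t + ρ) * (g0 + g1 * t + g2 * t ^ 2)|
      ≤ 1 / (8 * X) := by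
  have hX0 : 0 < X := by linarith
  have hL0 : 0 < L := by linarith
  have e : (f0 + f1 * t + f2 * t ^ 2 + f3 * t ^ 3) - (θ * t + ρ) * (g0 + g1 * t + g2 * t ^ 2)
      = (f0 - ρ * g0) + (f1 - (θ * g0 + ρ * g1)) * t + (f2 - (θ * g1 + ρ * g2)) * t ^ 2
        + (f3 - θ * g2) * t ^ 3 := by ring
  rw [e]
  have k : ∀ (n : ℕ) (y : ℝ), |y| ≤ 1 / (32 * X * L ^ n) → |y * t ^ n| ≤ 1 / (32 * X) := by
    intro n y hy
    rw [abs_mul, abs_of_nonneg (pow_nonneg ht0 n)]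
    calc |y| * t ^ n ≤ 1 / (32 * X * L ^ n) * L ^ n :=
          mul_le_mul hy (pow_le_pow_left₀ ht0 ht n) (pow_nonneg ht0 n) (by positivity)
      _ = 1 / (32 * X) := by field_simp
  have k1 := k 1 _ (by simpa using h1)
  have k2 := k 2 _ h2
  have k3 := k 3 _ h3
  rw [pow_one] at k1
  have e8 : 1 / (8 * X) = 1 / (32 * X) + 1 / (32 * X) + 1 / (32 * X) + 1 / (32 * X) := by
    field_simp; norm_num
  rw [e8]
  refine (abs_add_le _ _).trans (add_le_add ?_ k3)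
  refine (abs_add_le _ _).trans (add_le_add ?_ k2)
  exact (abs_add_le _ _).trans (add_le_add h0 k1)

end INITaux

open INITaux in
theorem m_INIT : Stmt_SIEG → Stmt_PRIM → Stmt_GCD → Stmt_SPR → Stmt_LAGA → Stmt_INIT := by
  intro hSIEG hPRIM hGCD hSPR hLAGA C s hC hs hs'
  obtain ⟨A1, hA1, hG⟩ := hGCD (2 * C + 10) s (by linarith) hs
  obtain ⟨A2, hA2, hc2⟩ := large (1 / 10) 30000 (by norm_num)
  obtain ⟨A3, hA3, hc3⟩ := large (3 / 100) 8 (by norm_num)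
  obtain ⟨A4, hA4, hc4⟩ := large s 4 hs
  refine ⟨max (max A1 A2) (max A3 (max A4 (10 ^ 7))), ?_, ?_⟩
  · exact hA1.trans ((le_max_left _ _).trans (le_max_left _ _))
  intro A θ ρ X ε S j p hA D v l hl1 hl2 hcut
  have hAA1 : A1 ≤ A := ((le_max_left _ _).trans (le_max_left _ _)).trans hA
  have hAA2 : A2 ≤ A := ((le_max_right _ _).trans (le_max_left _ _)).trans hA
  have hAA3 : A3 ≤ A := ((le_max_left _ _).trans (le_max_right _ _)).trans hA
  have hAA4 : A4 ≤ A := (((le_max_left _ _).trans (le_max_right _ _)).trans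
    (le_max_right _ _)).trans hA
  have hA7 : (10 : ℝ) ^ 7 ≤ A := (((le_max_right _ _).trans (le_max_right _ _)).trans
    (le_max_right _ _)).trans hA
  have hAge1 : 1 ≤ A := hA1.trans hAA1
  have hA0 : 0 < A := by linarith
  have q2 := hc2 A hAA2
  have q3 := hc3 A hAA3
  have q4 := hc4 A hAA4
  have hX0 : 0 < X := by linarith [D.hX1]
  set T := cut S v l with hT
  have hTS : ∀ a ∈ T, a ∈ S ∧ v ≤ (a : ℝ) ∧ (a : ℝ) ≤ v + l := by
    intro a ha
    rw [hT] at ha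
    unfold cut at ha
    rw [Finset.mem_filter] at ha
    exact ha
  have hl0 : 0 < l := lt_of_lt_of_le (by positivity) hl1
  -- the short interval
  set a0 : ℤ := ⌊v⌋ with ha0
  have hf1 : (a0 : ℝ) ≤ v := Int.floor_le v
  have hf2 : v < a0 + 1 := Int.lt_floor_add_one v
  set L : ℝ := l + 1 with hL
  have hL1 : 1 ≤ L := by linarith
  have hL2 : L ≤ 2 * A ^ (1 / 20 : ℝ) := by
    have : 1 ≤ A ^ (1 / 20 : ℝ) := Real.one_le_rpow hAge1 (by norm_num)
    linarith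
  have hL3 : L ^ 3 ≤ 8 * A ^ (3 / 20 : ℝ) := by
    have h1 : L ^ 3 ≤ (2 * A ^ (1 / 20 : ℝ)) ^ 3 := pow_le_pow_left₀ (by linarith) hL2 3
    have h2 : (2 * A ^ (1 / 20 : ℝ)) ^ 3 = 8 * A ^ (3 / 20 : ℝ) := by
      rw [mul_pow, ← Real.rpow_natCast (A ^ (1 / 20 : ℝ)) 3, ← Real.rpow_mul hA0.le]
      norm_num
    linarith
  obtain ⟨g0, g1, g2, f0, f1, f2, f3, hg, hg0, hg1, hg2, hd0, hd1, hd2, hd3⟩ :=
    hSIEG X L θ (θ * a0 + ρ) D.hX1 hL1
  set Y : ℤ[X] := Polynomial.X - Polynomial.C a0 with hY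
  set G0 : ℤ[X] := Polynomial.C g0 + Polynomial.C g1 * Y + Polynomial.C g2 * Y ^ 2 with hG0
  set F0 : ℤ[X] := Polynomial.C f0 + Polynomial.C f1 * Y + Polynomial.C f2 * Y ^ 2
    + Polynomial.C f3 * Y ^ 3 with hF0
  have eG : ∀ a : ℤ, G0.eval a = g0 + g1 * (a - a0) + g2 * (a - a0) ^ 2 := by
    intro a; rw [hG0, hY]; simp
  have eF : ∀ a : ℤ, F0.eval a = f0 + f1 * (a - a0) + f2 * (a - a0) ^ 2 + f3 * (a - a0) ^ 3 := by
    intro a; rw [hF0, hY]; simp
  have hG0ne : G0 ≠ 0 := by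
    intro h0
    have k1 := eG a0
    have k2 := eG (a0 + 1)
    have k3 := eG (a0 - 1)
    rw [h0] at k1 k2 k3
    simp only [eval_zero, sub_self, mul_zero, add_zero, ne_eq, OfNat.ofNat_ne_zero,
      not_false_eq_true, zero_pow] at k1 k2 k3
    have e1 : a0 + 1 - a0 = (1 : ℤ) := by ring
    have e2 : a0 - 1 - a0 = (-1 : ℤ) := by ring
    rw [e1] at k2
    rw [e2] at k3
    rcases hg with h | h | h <;> apply h <;> omega
  have dG0 : G0.natDegree ≤ 2 := by rw [hG0, hY]; compute_degree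
  have dF0 : F0.natDegree ≤ 3 := by rw [hF0, hY]; compute_degree
  -- bounds at the points
  have hbd : ∀ a ∈ T, |((G0.eval a : ℤ) : ℝ)| ≤ 3000 * X ^ (4 / 3 : ℝ) * L ^ 3 ∧
      |((F0.eval a : ℤ) : ℝ) - (θ * a + ρ) * ((G0.eval a : ℤ) : ℝ)| ≤ 1 / (8 * X) := by
    intro a ha
    obtain ⟨-, hv1, hv2⟩ := hTS a ha
    have ht0 : 0 ≤ (a : ℝ) - a0 := by linarith
    have ht1 : (a : ℝ) - a0 ≤ L := by linarith
    have eG' : ((G0.eval a : ℤ) : ℝ) = g0 + g1 * ((a : ℝ) - a0) + g2 * ((a : ℝ) - a0) ^ 2 := by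
      rw [eG]; push_cast; ring
    have eF' : ((F0.eval a : ℤ) : ℝ) = f0 + f1 * ((a : ℝ) - a0) + f2 * ((a : ℝ) - a0) ^ 2
        + f3 * ((a : ℝ) - a0) ^ 3 := by
      rw [eF]; push_cast; ring
    set t : ℝ := (a : ℝ) - a0 with ht
    have hXp : 0 < X ^ (4 / 3 : ℝ) := by positivity
    have hL0 : 0 ≤ L := by linarith
    constructor
    · rw [eG']
      have b1 : |(g1 : ℝ) * t| ≤ 1000 * X ^ (4 / 3 : ℝ) * L ^ 3 := by
        rw [abs_mul, abs_of_nonneg ht0]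
        calc |(g1 : ℝ)| * t ≤ (1000 * X ^ (4 / 3 : ℝ) * L ^ 2) * L :=
              mul_le_mul hg1 ht1 ht0 (by positivity)
          _ = _ := by ring
      have b2 : |(g2 : ℝ) * t ^ 2| ≤ 1000 * X ^ (4 / 3 : ℝ) * L ^ 3 := by
        rw [abs_mul, abs_of_nonneg (pow_nonneg ht0 2)]
        calc |(g2 : ℝ)| * t ^ 2 ≤ (1000 * X ^ (4 / 3 : ℝ) * L) * L ^ 2 :=
              mul_le_mul hg2 (pow_le_pow_left₀ ht0 ht1 2) (by positivity) (by positivity)
          _ = _ := by ring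
      have b3 := (abs_add_le ((g0 : ℝ) + g1 * t) (g2 * t ^ 2)).trans
        (add_le_add (abs_add_le _ _) le_rfl)
      linarith
    · rw [eF', eG']
      have := err (X := X) (L := L) (θ := θ) (ρ := θ * a0 + ρ) (t := t) (g0 := g0) (g1 := g1)
        (g2 := g2) (f0 := f0) (f1 := f1) (f2 := f2) (f3 := f3) D.hX1 hL1 ht0 ht1 hd0 hd1 hd2 hd3
      have e : θ * (a : ℝ) + ρ = θ * t + (θ * a0 + ρ) := by rw [ht]; ring
      rw [e]
      exact this
  -- the exact relation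
  have hXL : ε * (3000 * X ^ (4 / 3 : ℝ) * L ^ 3) < 7 / 8 := by
    have hXp : 0 < X ^ (4 / 3 : ℝ) := by positivity
    have hA4' : 0 < A ^ (1 / 4 : ℝ) := by positivity
    have h1 : ε * X ^ (4 / 3 : ℝ) ≤ A ^ (-(1 / 4) : ℝ) := by
      rw [Real.rpow_neg hA0.le, ← one_div, le_div_iff₀ hA4']
      exact D.hH
    have h2 : ε * (3000 * X ^ (4 / 3 : ℝ) * L ^ 3)
        ≤ A ^ (-(1 / 4) : ℝ) * (3000 * (8 * A ^ (3 / 20 : ℝ))) := by
      have e : ε * (3000 * X ^ (4 / 3 : ℝ) * L ^ 3) = ε * X ^ (4 / 3 : ℝ) * (3000 * L ^ 3) := by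
        ring
      rw [e]
      exact mul_le_mul h1 (by linarith) (by positivity) (by positivity)
    have h3 : A ^ (-(1 / 4) : ℝ) * (3000 * (8 * A ^ (3 / 20 : ℝ)))
        = 24000 * (A ^ (1 / 10 : ℝ))⁻¹ := by
      have : A ^ (-(1 / 4) : ℝ) * A ^ (3 / 20 : ℝ) = (A ^ (1 / 10 : ℝ))⁻¹ := by
        rw [← Real.rpow_add hA0, ← Real.rpow_neg hA0.le]
        norm_num
      rw [← this]; ring
    have h4 : (A ^ (1 / 10 : ℝ))⁻¹ ≤ (30000 : ℝ)⁻¹ := by
      apply inv_anti₀ (by norm_num) q2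
    rw [h3] at h2
    have h5 : 24000 * (A ^ (1 / 10 : ℝ))⁻¹ ≤ 24000 * (30000 : ℝ)⁻¹ := by linarith
    have h6 : (24000 : ℝ) * (30000 : ℝ)⁻¹ < 7 / 8 := by norm_num
    linarith
  have hrel : ∀ a ∈ T, j a * F0.eval a = p a * G0.eval a := by
    intro a ha
    obtain ⟨haS, -, -⟩ := hTS a ha
    obtain ⟨b1, b2⟩ := hbd a ha
    have b3 := D.hap a haS
    have hj1 : (1 : ℝ) ≤ j a := by exact_mod_cast D.hj1 a haS
    have hjX := D.hjX a haS
    have e : (j a : ℝ) * ((F0.eval a : ℤ) : ℝ) - p a * ((G0.eval a : ℤ) : ℝ)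
        = j a * (((F0.eval a : ℤ) : ℝ) - (θ * a + ρ) * ((G0.eval a : ℤ) : ℝ))
          - ((p a : ℝ) - j a * (θ * a + ρ)) * ((G0.eval a : ℤ) : ℝ) := by ring
    have h1 : |(j a : ℝ) * ((F0.eval a : ℤ) : ℝ) - p a * ((G0.eval a : ℤ) : ℝ)| < 1 := by
      rw [e]
      have c1 : |(j a : ℝ) * (((F0.eval a : ℤ) : ℝ) - (θ * a + ρ) * ((G0.eval a : ℤ) : ℝ))| ≤ 1 / 8 := by
        rw [abs_mul, abs_of_pos (by linarith)]
        calc (j a : ℝ) * |((F0.eval a : ℤ) : ℝ) - (θ * a + ρ) * ((G0.eval a : ℤ) : ℝ)| ≤ X * (1 / (8 * X)) :=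
              mul_le_mul hjX b2 (abs_nonneg _) hX0.le
          _ = 1 / 8 := by field_simp
      have c2 : |((p a : ℝ) - j a * (θ * a + ρ)) * ((G0.eval a : ℤ) : ℝ)|
          ≤ ε * (3000 * X ^ (4 / 3 : ℝ) * L ^ 3) := by
        rw [abs_mul]
        exact mul_le_mul b3 b1 (abs_nonneg _) D.hε.le
      have c3 := abs_sub ((j a : ℝ) * (((F0.eval a : ℤ) : ℝ) - (θ * a + ρ) * ((G0.eval a : ℤ) : ℝ)))
        (((p a : ℝ) - j a * (θ * a + ρ)) * ((G0.eval a : ℤ) : ℝ))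
      linarith
    have h2 : |j a * F0.eval a - p a * G0.eval a| < 1 := by
      have : |((j a * F0.eval a - p a * G0.eval a : ℤ) : ℝ)| < 1 := by push_cast; exact h1
      exact_mod_cast this
    have h3 := Int.abs_lt_one_iff.1 h2
    linarith
  -- division by the common factor
  obtain ⟨h, F, G, hh, hF0F, hG0G, hP⟩ := hPRIM F0 G0 hG0ne
  have dF : F.natDegree ≤ 3 := natDegree_le_of_mul hh hF0F dF0
  have dG : G.natDegree ≤ 2 := natDegree_le_of_mul hh hG0G dG0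
  have dh : h.natDegree ≤ 2 := by
    have hGne : G ≠ 0 := by
      intro h0
      rw [h0, mul_zero] at hG0G
      exact hG0ne hG0G
    rw [hG0G, natDegree_mul hh hGne] at dG0
    omega
  refine ⟨F, G, dF, dG, hP, ?_⟩
  classical
  set T0 := T.filter (fun a => h.eval a = 0) with hT0
  set T1 := T.filter (fun a => h.eval a ≠ 0) with hT1
  have cT0 : T0.card ≤ 2 := by
    have h1 : T0 ⊆ h.roots.toFinset := by
      intro a ha
      rw [hT0, Finset.mem_filter] at ha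
      rw [Multiset.mem_toFinset, mem_roots hh]
      exact ha.2
    calc T0.card ≤ h.roots.toFinset.card := Finset.card_le_card h1
      _ ≤ Multiset.card h.roots := Multiset.toFinset_card_le _
      _ ≤ h.natDegree := card_roots' h
      _ ≤ 2 := dh
  have cT01 : T0.card + T1.card = T.card := by
    rw [hT0, hT1]
    exact Finset.card_filter_add_card_filter_not (s := T) (fun a => h.eval a = 0)
  have hmT1 : ∀ a ∈ T1, a ∈ T ∧ h.eval a ≠ 0 := by
    intro a ha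
    rw [hT1, Finset.mem_filter] at ha
    exact ha
  -- the points of T1
  have hpt : ∀ a ∈ T1, ∃ g : ℤ, g ≠ 0 ∧ G.eval a = g * j a ∧ F.eval a = g * p a ∧
      Int.gcd (F.eval a) (G.eval a) = g.natAbs := by
    intro a ha
    obtain ⟨haT, hha⟩ := hmT1 a ha
    obtain ⟨haS, -, -⟩ := hTS a haT
    have r1 := hrel a haT
    rw [hF0F, hG0G, eval_mul, eval_mul] at r1
    have r2 : j a * F.eval a = p a * G.eval a := by
      apply mul_left_cancel₀ hha
      linear_combination r1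
    have hco := D.hco a haS
    have hdv : j a ∣ G.eval a := by
      apply hco.dvd_of_dvd_mul_left
      exact ⟨F.eval a, r2.symm⟩
    obtain ⟨g, hgg⟩ := hdv
    have hj0 : j a ≠ 0 := by have := D.hj1 a haS; omega
    have hFg : F.eval a = g * p a := by
      apply mul_left_cancel₀ hj0
      rw [r2, hgg]; ring
    have hGg : G.eval a = g * j a := by rw [hgg]; ring
    refine ⟨g, ?_, hGg, hFg, ?_⟩
    · intro h0
      rw [h0, zero_mul] at hFg hGg
      exact common_zero hP.1 a hFg hGg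
    · rw [hFg, hGg, Int.gcd_mul_left]
      have : Int.gcd (p a) (j a) = 1 := by
        rw [Int.gcd_comm]
        exact Int.isCoprime_iff_gcd_eq_one.1 hco
      rw [this, mul_one]
  -- the size of the coefficients
  have hcutT : A ^ (-s) * l ≤ (T.card : ℝ) := hcut
  have hAsl : 8 ≤ A ^ (-s) * l := by
    have h1 : A ^ (-s) * A ^ (1 / 25 : ℝ) ≤ A ^ (-s) * l :=
      mul_le_mul_of_nonneg_left hl1 (by positivity)
    have h2 : A ^ (3 / 100 : ℝ) ≤ A ^ (-s) * A ^ (1 / 25 : ℝ) := by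
      rw [← Real.rpow_add hA0]
      exact Real.rpow_le_rpow_of_exponent_le hAge1 (by linarith)
    linarith
  have cT1 : 3 * 1 + 1 ≤ T1.card := by
    have h1 : (8 : ℝ) ≤ T.card := hAsl.trans hcutT
    have h2 : 8 ≤ T.card := by exact_mod_cast h1
    omega
  obtain ⟨b, hb1, hb2⟩ := hSPR 3 1 T1 cT1
  have hval : ∀ a ∈ T1, |((G.eval a : ℤ) : ℝ)| ≤ 50000 * A ^ (4 * C / 3 + 2) ∧
      |((F.eval a : ℤ) : ℝ)| ≤ 50000 * A ^ (4 * C / 3 + 2) ∧ |(a : ℝ)| ≤ A := by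
    intro a ha
    obtain ⟨haT, hha⟩ := hmT1 a ha
    obtain ⟨haS, -, -⟩ := hTS a haT
    obtain ⟨b1, b2⟩ := hbd a haT
    obtain ⟨s1, s2⟩ := D.hS a haS
    have ha1 : 1 ≤ |((h.eval a : ℤ) : ℝ)| := by
      have := Int.one_le_abs hha
      exact_mod_cast this
    have X1 : X ^ (4 / 3 : ℝ) ≤ A ^ (4 * C / 3) := by
      calc X ^ (4 / 3 : ℝ) ≤ (A ^ C) ^ (4 / 3 : ℝ) :=
            Real.rpow_le_rpow hX0.le D.hXA (by norm_num)
        _ = A ^ (4 * C / 3) := by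
            rw [← Real.rpow_mul hA0.le]; congr 1; ring
    have L1 : L ^ 3 ≤ 8 * A := by
      have : A ^ (3 / 20 : ℝ) ≤ A ^ (1 : ℝ) :=
        Real.rpow_le_rpow_of_exponent_le hAge1 (by norm_num)
      rw [Real.rpow_one] at this
      linarith
    have hAC : 0 < A ^ (4 * C / 3) := by positivity
    have G1 : |((G0.eval a : ℤ) : ℝ)| ≤ 24000 * (A ^ (4 * C / 3) * A) := by
      calc |((G0.eval a : ℤ) : ℝ)| ≤ 3000 * X ^ (4 / 3 : ℝ) * L ^ 3 := b1
        _ ≤ 3000 * A ^ (4 * C / 3) * (8 * A) :=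
            mul_le_mul (by linarith) L1 (by positivity) (by positivity)
        _ = _ := by ring
    have hsplit : A ^ (4 * C / 3 + 2) = A ^ (4 * C / 3) * A ^ 2 := by
      rw [Real.rpow_add hA0]
      norm_num
    have hAA : A ≤ A ^ 2 := by nlinarith
    have hAA1' : 1 ≤ A ^ (4 * C / 3) * A ^ 2 := by
      have : 1 ≤ A ^ (4 * C / 3) := Real.one_le_rpow hAge1 (by positivity)
      nlinarith
    have G2 : |((G.eval a : ℤ) : ℝ)| ≤ |((G0.eval a : ℤ) : ℝ)| := by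
      rw [hG0G, eval_mul]
      push_cast
      rw [abs_mul]
      nlinarith [abs_nonneg ((G.eval a : ℤ) : ℝ)]
    have F2 : |((F.eval a : ℤ) : ℝ)| ≤ |((F0.eval a : ℤ) : ℝ)| := by
      rw [hF0F, eval_mul]
      push_cast
      rw [abs_mul]
      nlinarith [abs_nonneg ((F.eval a : ℤ) : ℝ)]
    have a0' : 0 ≤ (a : ℝ) := by linarith
    have F1 : |((F0.eval a : ℤ) : ℝ)| ≤ 50000 * (A ^ (4 * C / 3) * A ^ 2) := by
      have e : ((F0.eval a : ℤ) : ℝ) = (((F0.eval a : ℤ) : ℝ) - (θ * a + ρ) * ((G0.eval a : ℤ) : ℝ))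
          + (θ * a + ρ) * ((G0.eval a : ℤ) : ℝ) := by ring
      rw [e]
      have c1 : 1 / (8 * X) ≤ 1 := by
        rw [div_le_one (by positivity)]; linarith [D.hX1]
      have c2 : |(θ * (a : ℝ) + ρ)| ≤ 2 * A := by
        have t0 : 0 ≤ θ * (a : ℝ) + ρ := add_nonneg (mul_nonneg D.hθ0 a0') D.hρ0
        rw [abs_of_nonneg t0]
        have : θ * (a : ℝ) ≤ 1 * A := mul_le_mul D.hθ1 s2 a0' (by norm_num)
        linarith [D.hρ1]
      have c3 : |(θ * (a : ℝ) + ρ) * ((G0.eval a : ℤ) : ℝ)| ≤ 2 * A * (24000 * (A ^ (4 * C / 3) * A)) := by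
        rw [abs_mul]
        exact mul_le_mul c2 G1 (abs_nonneg _) (by positivity)
      have c4 := abs_add_le (((F0.eval a : ℤ) : ℝ) - (θ * a + ρ) * ((G0.eval a : ℤ) : ℝ)) ((θ * a + ρ) * ((G0.eval a : ℤ) : ℝ))
      nlinarith
    refine ⟨?_, ?_, ?_⟩
    · rw [hsplit]
      have : A ^ (4 * C / 3) * A ≤ A ^ (4 * C / 3) * A ^ 2 := mul_le_mul_of_nonneg_left hAA hAC.le
      linarith
    · rw [hsplit]; linarith
    · rw [abs_of_nonneg a0']; exact s2
  have hcoef : ∀ H : ℤ[X], H.natDegree ≤ 3 →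
      (∀ a ∈ T1, |((H.eval a : ℤ) : ℝ)| ≤ 50000 * A ^ (4 * C / 3 + 2)) →
      ∀ k, |(H.coeff k : ℝ)| ≤ A ^ (2 * C + 10) := by
    intro H dH hH k
    have h1 := hLAGA 3 (H.map (Int.castRingHom ℝ)) (50000 * A ^ (4 * C / 3 + 2)) A b
      (natDegree_map_le.trans dH) (fun i hi => by simpa using hb2 i hi)
      (fun i hi => by
        rw [Polynomial.eval_intCast_map, Int.cast_id]
        exact hH _ (hb1 i hi))
      (fun i hi => (hval _ (hb1 i hi)).2.2) k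
    rw [coeff_map] at h1
    have h2 : |(H.coeff k : ℝ)| ≤ ((3 : ℕ) + 1) * (50000 * A ^ (4 * C / 3 + 2)) * (1 + A) ^ 3 := h1
    refine h2.trans ?_
    have h3 : (1 + A) ^ 3 ≤ 8 * A ^ 3 := by
      have : (1 + A) ^ 3 ≤ (2 * A) ^ 3 := pow_le_pow_left₀ (by linarith) (by linarith) 3
      calc (1 + A) ^ 3 ≤ (2 * A) ^ 3 := this
        _ = 8 * A ^ 3 := by ring
    have h4 : A ^ (2 * C + 10) = A ^ (4 * C / 3 + 2) * A ^ (2 * C / 3 + 8) := by
      rw [← Real.rpow_add hA0]; congr 1; ring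
    have h5 : A ^ (5 : ℕ) * A ^ 3 ≤ A ^ (2 * C / 3 + 8) := by
      rw [← pow_add, ← Real.rpow_natCast A (5 + 3)]
      apply Real.rpow_le_rpow_of_exponent_le hAge1
      push_cast
      linarith
    have h6 : (1600000 : ℝ) ≤ A ^ 5 := by
      have : A ≤ A ^ 5 := le_self_pow₀ hAge1 (by norm_num)
      have : (1600000 : ℝ) ≤ 10 ^ 7 := by norm_num
      linarith
    have hp0 : 0 < A ^ (4 * C / 3 + 2) := by positivity
    rw [h4]
    calc ((3 : ℕ) + 1) * (50000 * A ^ (4 * C / 3 + 2)) * (1 + A) ^ 3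
        ≤ ((3 : ℕ) + 1) * (50000 * A ^ (4 * C / 3 + 2)) * (8 * A ^ 3) :=
          mul_le_mul_of_nonneg_left h3 (by positivity)
      _ = A ^ (4 * C / 3 + 2) * (1600000 * A ^ 3) := by push_cast; ring
      _ ≤ A ^ (4 * C / 3 + 2) * (A ^ 5 * A ^ 3) := by
          apply mul_le_mul_of_nonneg_left _ hp0.le
          exact mul_le_mul_of_nonneg_right h6 (by positivity)
      _ ≤ A ^ (4 * C / 3 + 2) * A ^ (2 * C / 3 + 8) :=
          mul_le_mul_of_nonneg_left h5 hp0.le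
  -- the points with a large gcd
  set T2 := T1.filter (fun a => A ^ (19 * s) < (Int.gcd (F.eval a) (G.eval a) : ℝ)) with hT2
  have cT2 : (T2.card : ℝ) ≤ l * A ^ (-(2 * s)) := by
    refine hG A hAA1 F G dF (dG.trans (by norm_num)) hP
      (hcoef F dF fun a ha => (hval a ha).2.1)
      (hcoef G (dG.trans (by norm_num)) fun a ha => (hval a ha).1) v l T2 ?_ ?_ ?_
    · refine le_trans ?_ hl1
      exact Real.rpow_le_rpow_of_exponent_le hAge1 (by linarith)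
    · intro a ha
      rw [hT2, Finset.mem_filter] at ha
      obtain ⟨-, hv1, hv2⟩ := hTS a (hmT1 a ha.1).1
      exact ⟨hv1, hv2⟩
    · intro a ha
      rw [hT2, Finset.mem_filter] at ha
      exact ha.2
  have hsub : T1 \ T2 ⊆ gset (A ^ (19 * s)) F G j p T := by
    intro a ha
    rw [Finset.mem_sdiff] at ha
    obtain ⟨haT1, hn⟩ := ha
    have hn' : ¬ (A ^ (19 * s) < (Int.gcd (F.eval a) (G.eval a) : ℝ)) := by
      intro hlt
      exact hn (by rw [hT2, Finset.mem_filter]; exact ⟨haT1, hlt⟩)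
    obtain ⟨g, hg0', hgG, hgF, hgg⟩ := hpt a haT1
    unfold gset
    rw [Finset.mem_filter]
    refine ⟨(hmT1 a haT1).1, g, hg0', ?_, hgG, hgF⟩
    rw [hgg, Nat.cast_natAbs] at hn'
    push Not at hn'
    push_cast at hn'
    exact hn'
  have hc1 : ((T1 \ T2).card : ℝ) ≤ ((gset (A ^ (19 * s)) F G j p T).card : ℝ) := by
    exact_mod_cast Finset.card_le_card hsub
  have hc2' : (T1.card : ℝ) ≤ ((T1 \ T2).card : ℝ) + T2.card := by
    have h1 := Finset.le_card_sdiff T2 T1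
    have : T1.card ≤ (T1 \ T2).card + T2.card := by omega
    exact_mod_cast this
  have hc3' : (T.card : ℝ) ≤ 2 + T1.card := by
    have : T.card ≤ 2 + T1.card := by omega
    exact_mod_cast this
  have hfin : l * A ^ (-(2 * s)) ≤ A ^ (-s) * l / 4 := by
    have e1 : A ^ (-(2 * s)) = A ^ (-s) * A ^ (-s) := by
      rw [← Real.rpow_add hA0]; congr 1; ring
    have e2 : A ^ (-s) ≤ 1 / 4 := by
      rw [Real.rpow_neg hA0.le, inv_eq_one_div]
      exact one_div_le_one_div_of_le (by norm_num) q4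
    have hp : 0 < A ^ (-s) * l := by positivity
    calc l * A ^ (-(2 * s)) = A ^ (-s) * l * A ^ (-s) := by rw [e1]; ring
      _ ≤ A ^ (-s) * l * (1 / 4) := mul_le_mul_of_nonneg_left e2 hp.le
      _ = A ^ (-s) * l / 4 := by ring
  linarith

end Pool.Agent.UHI
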