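import Pool.Agent.UHI.Stmts

set_option autoImplicit false

/-!
# INV: the inverse theorem from NEST, INIT, STEP, FIN

Nested intervals with ratio `M = ceil (A^(1/20))`, INIT on the 19th interval, STEP down to the whole
interval `[A/2, A]`, FIN; then the reductions modulo 1 and the division by the gcd.
-/

namespace Pool.Agent.UHI

open Polynomial

namespace INVaux

lemma cut_subset (S : Finset ℤ) (u L : ℝ) : cut S u L ⊆ S := by
  classical
  intro a ha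
  unfold cut at ha
  exact (Finset.mem_filter.1 ha).1

lemma gset_mono {K : ℝ} {F G : ℤ[X]} {j p : ℤ → ℤ} {T T' : Finset ℤ} (h : T ⊆ T') :
    gset K F G j p T ⊆ gset K F G j p T' := by
  classical
  intro a ha
  unfold gset at ha ⊢
  rw [Finset.mem_filter] at ha ⊢
  exact ⟨h ha.1, ha.2⟩

/-- the numerical facts about `M = ceil (A^(1/20))` -/
lemma numer {A : ℝ} (hA : ((2 : ℝ) ^ (20 : ℕ)) ^ (100 : ℕ) ≤ A) :
    1 ≤ A ∧ 1 ≤ ⌈A ^ (1 / 20 : ℝ)⌉₊ ∧ ((⌈A ^ (1 / 20 : ℝ)⌉₊ : ℕ) : ℝ) ≤ A ^ (1 / 15 : ℝ) ∧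
      A ^ (1 / 25 : ℝ) ≤ (A / 2) / (⌈A ^ (1 / 20 : ℝ)⌉₊ : ℝ) ^ 19 ∧
      (A / 2) / (⌈A ^ (1 / 20 : ℝ)⌉₊ : ℝ) ^ 19 ≤ A ^ (1 / 20 : ℝ) := by
  have h100 : (2 : ℝ) ^ (20 : ℕ) ≤ A ^ (1 / 100 : ℝ) := by
    have h : (((2 : ℝ) ^ (20 : ℕ)) ^ (100 : ℕ)) ^ (1 / 100 : ℝ) = (2 : ℝ) ^ (20 : ℕ) := by
      rw [← Real.rpow_natCast ((2 : ℝ) ^ (20 : ℕ)) 100, ← Real.rpow_mul (by positivity)]
      norm_num
    rw [← h]
    exact Real.rpow_le_rpow (by positivity) hA (by norm_num)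
  have hA1 : 1 ≤ A := le_trans (one_le_pow₀ (one_le_pow₀ (by norm_num))) hA
  have hA0 : 0 < A := by linarith
  set y : ℝ := A ^ (1 / 20 : ℝ) with hy
  have hy1 : 1 ≤ y := Real.one_le_rpow hA1 (by norm_num)
  have hy0 : 0 < y := by linarith
  have hM1 : y ≤ (⌈y⌉₊ : ℝ) := Nat.le_ceil y
  have hM2 : (⌈y⌉₊ : ℝ) ≤ 2 * y := by
    have := (Nat.ceil_lt_add_one hy0.le).le
    linarith
  have hM0 : (0 : ℝ) < (⌈y⌉₊ : ℝ) := lt_of_lt_of_le hy0 hM1
  have hy19 : y ^ 19 = A ^ (19 / 20 : ℝ) := by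
    rw [hy, ← Real.rpow_natCast, ← Real.rpow_mul hA0.le]
    norm_num
  have hAy : A = y * y ^ 19 := by
    rw [hy19, hy, ← Real.rpow_add hA0]
    norm_num
  refine ⟨hA1, ?_, ?_, ?_, ?_⟩
  · exact Nat.one_le_iff_ne_zero.2 (by
      intro h
      rw [h] at hM0
      simp at hM0)
  · have h60 : (2 : ℝ) ≤ A ^ (1 / 60 : ℝ) := by
      have h1 : A ^ (1 / 100 : ℝ) ≤ A ^ (1 / 60 : ℝ) :=
        Real.rpow_le_rpow_of_exponent_le hA1 (by norm_num)
      have h2 : (2 : ℝ) ≤ 2 ^ (20 : ℕ) := by norm_num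
      linarith
    have h15 : A ^ (1 / 15 : ℝ) = A ^ (1 / 60 : ℝ) * y := by
      rw [hy, ← Real.rpow_add hA0]
      norm_num
    rw [h15]
    calc (⌈y⌉₊ : ℝ) ≤ 2 * y := hM2
      _ ≤ A ^ (1 / 60 : ℝ) * y := mul_le_mul_of_nonneg_right h60 hy0.le
  · rw [le_div_iff₀ (by positivity)]
    have h1 : (⌈y⌉₊ : ℝ) ^ 19 ≤ (2 * y) ^ 19 := pow_le_pow_left₀ hM0.le hM2 19
    have h25 : y = A ^ (1 / 25 : ℝ) * A ^ (1 / 100 : ℝ) := by
      rw [hy, ← Real.rpow_add hA0]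
      norm_num
    have h2 : A ^ (1 / 25 : ℝ) * (2 : ℝ) ^ (20 : ℕ) ≤ y := by
      rw [h25]
      exact mul_le_mul_of_nonneg_left h100 (by positivity)
    have h3 : 0 ≤ y ^ 19 := by positivity
    have h4 := mul_le_mul_of_nonneg_right h2 h3
    have h5 : A ^ (1 / 25 : ℝ) * (⌈y⌉₊ : ℝ) ^ 19 ≤ A ^ (1 / 25 : ℝ) * (2 * y) ^ 19 :=
      mul_le_mul_of_nonneg_left h1 (by positivity)
    have h6 : A ^ (1 / 25 : ℝ) * (2 * y) ^ 19 = A ^ (1 / 25 : ℝ) * (2 : ℝ) ^ (20 : ℕ) * y ^ 19 / 2 := by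
      rw [mul_pow]; ring
    rw [h6] at h5
    calc A ^ (1 / 25 : ℝ) * (⌈y⌉₊ : ℝ) ^ 19
        ≤ A ^ (1 / 25 : ℝ) * (2 : ℝ) ^ (20 : ℕ) * y ^ 19 / 2 := h5
      _ ≤ y * y ^ 19 / 2 := by linarith
      _ = A / 2 := by rw [← hAy]
  · rw [div_le_iff₀ (by positivity)]
    have h1 : y ^ 19 ≤ (⌈y⌉₊ : ℝ) ^ 19 := pow_le_pow_left₀ hy0.le hM1 19
    have h2 : y * y ^ 19 ≤ y * (⌈y⌉₊ : ℝ) ^ 19 := mul_le_mul_of_nonneg_left h1 hy0.le
    calc A / 2 ≤ A := by linarith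
      _ = y * y ^ 19 := hAy
      _ ≤ _ := h2

end INVaux

open INVaux

/-- INV01 from NEST, INIT, STEP, FIN -/
theorem m_INV01 : Stmt_NEST → Stmt_INIT → Stmt_STEP → Stmt_FIN → Stmt_INV01 := by
  intro hNest hInit hStep hFin C s hC hs hs1
  obtain ⟨A1, hA1, hI⟩ := hInit C s hC hs hs1
  obtain ⟨A2, hA2, hSt⟩ := hStep C s hC hs hs1
  obtain ⟨A3, hA3, hF⟩ := hFin C s hC hs hs1
  refine ⟨max (max A1 A2) (max A3 (((2 : ℝ) ^ (20 : ℕ)) ^ (100 : ℕ))),
    le_max_of_le_left (le_max_of_le_left hA1), ?_⟩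
  intro A θ ρ X ε Δ S j p c hA hD hq
  have hAA1 : A1 ≤ A := le_trans (le_trans (le_max_left _ _) (le_max_left _ _)) hA
  have hAA2 : A2 ≤ A := le_trans (le_trans (le_max_right _ _) (le_max_left _ _)) hA
  have hAA3 : A3 ≤ A := le_trans (le_trans (le_max_left _ _) (le_max_right _ _)) hA
  have hAA4 : ((2 : ℝ) ^ (20 : ℕ)) ^ (100 : ℕ) ≤ A :=
    le_trans (le_trans (le_max_right _ _) (le_max_right _ _)) hA
  obtain ⟨h1A, hM1, hM15, hl1, hl2⟩ := numer hAA4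
  have hA0 : 0 < A := by linarith
  set M : ℕ := ⌈A ^ (1 / 20 : ℝ)⌉₊ with hM
  have hM1' : (1 : ℝ) ≤ (M : ℝ) := by exact_mod_cast hM1
  have hM0 : (0 : ℝ) < (M : ℝ) := by linarith
  have hr0 : 0 ≤ A ^ (-s) := by positivity
  have hrA : A ^ (-s) * A = A ^ (1 - s) := by
    have : A ^ (1 - s) = A ^ (-s) * A ^ (1 : ℝ) := by
      rw [← Real.rpow_add hA0]
      congr 1
      ring
    rw [this, Real.rpow_one]
  obtain ⟨v, hv0, hv⟩ := hNest S (A / 2) (A / 2) (A ^ (-s)) M hM1 (by linarith)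
    (fun a ha => ⟨(hD.hS a ha).1, by linarith [(hD.hS a ha).2]⟩)
    (by
      refine le_trans ?_ hD.hcard
      rw [← hrA]
      exact mul_le_mul_of_nonneg_left (by linarith) hr0)
  obtain ⟨F, G, hFd, hGd, hPr, h19⟩ := hI A θ ρ X ε S j p hAA1 hD (v 19) ((A / 2) / (M : ℝ) ^ 19)
    hl1 hl2 (hv 19).2.2
  have hdown : ∀ i : ℕ, i ≤ 19 →
      A ^ (-s) * ((A / 2) / (M : ℝ) ^ (19 - i)) / 2 ≤
        ((gset (A ^ (19 * s)) F G j p (cut S (v (19 - i)) ((A / 2) / (M : ℝ) ^ (19 - i)))).card : ℝ) := by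
    intro i
    induction i with
    | zero => intro _; exact h19
    | succ i ih =>
      intro hi
      have ih' := ih (by omega)
      obtain ⟨k, hk⟩ : ∃ k, 19 - (i + 1) = k := ⟨_, rfl⟩
      have hk1 : 19 - i = k + 1 := by omega
      rw [hk1] at ih'
      rw [hk]
      have hMk : 0 < (M : ℝ) ^ k := by positivity
      have hMk1 : 0 < (M : ℝ) ^ (k + 1) := by positivity
      refine hSt A θ ρ X ε S j p hAA2 hD F G hFd hGd hPr (v (k + 1)) ((A / 2) / (M : ℝ) ^ (k + 1))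
        (v k) ((A / 2) / (M : ℝ) ^ k) ?_ (hv k).1 (hv k).2.1 ?_ ?_ (hv k).2.2 ih'
      · refine le_trans hl1 ?_
        refine div_le_div_of_nonneg_left (by linarith) hMk1 ?_
        exact pow_le_pow_right₀ hM1' (by omega)
      · have h1 : (A / 2) / (M : ℝ) ^ k = (M : ℝ) * ((A / 2) / (M : ℝ) ^ (k + 1)) := by
          rw [pow_succ]
          field_simp
        rw [h1]
        exact mul_le_mul_of_nonneg_right hM15 (by positivity)
      · refine le_trans (div_le_self (by linarith) (one_le_pow₀ hM1')) (by linarith)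
  have h0 := hdown 19 le_rfl
  simp only [Nat.sub_self, pow_zero, div_one] at h0
  refine hF A θ ρ X ε Δ S j p c hAA3 hD hq F G hFd hGd hPr ?_
  have h1 : ((gset (A ^ (19 * s)) F G j p (cut S (v 0) (A / 2))).card : ℝ) ≤
      ((gset (A ^ (19 * s)) F G j p S).card : ℝ) := by
    exact_mod_cast Finset.card_le_card (gset_mono (cut_subset _ _ _))
  have h2 : A ^ (1 - s) / 4 = A ^ (-s) * (A / 2) / 2 := by
    rw [← hrA]; ring
  rw [h2]
  linarith

namespace INVaux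

/-- the form `q (u, v, w + t v + r u)` -/
def shiftc (c : Fin 6 → ℤ) (t r : ℤ) : Fin 6 → ℤ :=
  ![c 0 + c 2 * r ^ 2 + c 4 * r, c 1 + c 2 * t ^ 2 + c 5 * t, c 2,
    c 3 + 2 * c 2 * t * r + c 4 * t + c 5 * r, c 4 + 2 * c 2 * r, c 5 + 2 * c 2 * t]

lemma qf_shift (c : Fin 6 → ℤ) (t r u v w : ℤ) :
    qf (shiftc c t r) u v w = qf c u v (w + t * v + r * u) := by
  simp only [qf, shiftc, Matrix.cons_val_zero, Matrix.cons_val_one, Matrix.cons_val]
  ring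

lemma qf_neg (c : Fin 6 → ℤ) (v w : ℤ) : qf c 0 (-v) (-w) = qf c 0 v w := by
  simp only [qf]
  ring

lemma qf_smul (c : Fin 6 → ℤ) (g u v w : ℤ) : qf c (g * u) (g * v) (g * w) = g ^ 2 * qf c u v w := by
  simp only [qf]
  ring

end INVaux

/-- INV from NEST, INIT, STEP, FIN -/
theorem m_INV : Stmt_NEST → Stmt_INIT → Stmt_STEP → Stmt_FIN → Stmt_INV := by
  intro hNest hInit hStep hFin C s hC hs hs1
  obtain ⟨A0, hA01, h01⟩ := m_INV01 hNest hInit hStep hFin C s hC hs hs1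
  refine ⟨A0, hA01, ?_⟩
  intro A θ ρ X ε Δ S j p c hA hX1 hXA hε hH hS hcard hj hap hq
  set t : ℤ := ⌊θ⌋ with ht
  set r : ℤ := ⌊ρ⌋ with hr
  set j1 : ℤ → ℤ := fun a => j a / (Int.gcd (j a) (p a) : ℤ) with hj1
  set p1 : ℤ → ℤ := fun a => p a / (Int.gcd (j a) (p a) : ℤ) - j1 a * (t * a + r) with hp1
  -- the facts about the gcd
  have key : ∀ a ∈ S, ∃ g : ℤ, 1 ≤ g ∧ j a = g * j1 a ∧ p a = g * (p1 a + j1 a * (t * a + r)) ∧
      1 ≤ j1 a ∧ IsCoprime (j1 a) (p1 a) := by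
    intro a ha
    have hja := (hj a ha).1
    have hg0 : 0 < Int.gcd (j a) (p a) := Int.gcd_pos_of_ne_zero_left _ (by omega)
    have hg1 : (1 : ℤ) ≤ (Int.gcd (j a) (p a) : ℤ) := by exact_mod_cast hg0
    have e1 : (Int.gcd (j a) (p a) : ℤ) * j1 a = j a := by
      rw [hj1]
      exact Int.mul_ediv_cancel' (Int.gcd_dvd_left _ _)
    have e2 : (Int.gcd (j a) (p a) : ℤ) * (p a / (Int.gcd (j a) (p a) : ℤ)) = p a :=
      Int.mul_ediv_cancel' (Int.gcd_dvd_right _ _)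
    have e3 : p1 a + j1 a * (t * a + r) = p a / (Int.gcd (j a) (p a) : ℤ) := by
      rw [hp1]; ring
    refine ⟨(Int.gcd (j a) (p a) : ℤ), hg1, e1.symm, ?_, ?_, ?_⟩
    · rw [e3, e2]
    · by_contra hneg
      push Not at hneg
      have h1 : j1 a ≤ 0 := by omega
      have h2 : (Int.gcd (j a) (p a) : ℤ) * j1 a ≤ 0 := mul_nonpos_of_nonneg_of_nonpos (by omega) h1
      omega
    · have hc : IsCoprime (j a / (Int.gcd (j a) (p a) : ℤ)) (p a / (Int.gcd (j a) (p a) : ℤ)) := by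
        rw [Int.isCoprime_iff_gcd_eq_one]
        exact Int.gcd_div_gcd_div_gcd hg0
      have e4 : p1 a = p a / (Int.gcd (j a) (p a) : ℤ) + j1 a * (-(t * a + r)) := by
        rw [hp1]; ring
      rw [e4]
      exact hc.add_mul_left_right _
  have hθ0 : 0 ≤ θ - t := by
    have := Int.floor_le θ
    linarith
  have hθ1 : θ - t ≤ 1 := by
    have := (Int.lt_floor_add_one θ).le
    linarith
  have hρ0 : 0 ≤ ρ - r := by
    have := Int.floor_le ρ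
    linarith
  have hρ1 : ρ - r ≤ 1 := by
    have := (Int.lt_floor_add_one ρ).le
    linarith
  have hD : Dat A s C (θ - t) (ρ - r) X ε S j1 p1 := by
    refine ⟨hX1, hXA, hε, hH, hθ0, hθ1, hρ0, hρ1, hS, hcard, ?_, ?_, ?_, ?_⟩
    · intro a ha
      obtain ⟨g, hg, h1, h2, h3, h4⟩ := key a ha
      exact h3
    · intro a ha
      obtain ⟨g, hg, h1, h2, h3, h4⟩ := key a ha
      refine le_trans ?_ (hj a ha).2
      have : j1 a ≤ j a := by
        rw [h1]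
        nlinarith
      exact_mod_cast this
    · intro a ha
      obtain ⟨g, hg, h1, h2, h3, h4⟩ := key a ha
      have h5 := hap a ha
      have hgR : (1 : ℝ) ≤ (g : ℝ) := by exact_mod_cast hg
      have e : (p a : ℝ) - j a * (θ * a + ρ) =
          g * ((p1 a : ℝ) - j1 a * ((θ - t) * a + (ρ - r))) := by
        have e1 : (j a : ℝ) = g * j1 a := by exact_mod_cast h1
        have e2 : (p a : ℝ) = g * (p1 a + j1 a * (t * a + r)) := by exact_mod_cast h2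
        rw [e1, e2]
        ring
      rw [e, abs_mul, abs_of_pos (by linarith)] at h5
      have h6 : 0 ≤ |(p1 a : ℝ) - j1 a * ((θ - t) * a + (ρ - r))| := abs_nonneg _
      nlinarith
    · intro a ha
      obtain ⟨g, hg, h1, h2, h3, h4⟩ := key a ha
      exact h4
  have hq1 : ∀ a ∈ S, |(qf (shiftc c t r) (j1 a) (a * j1 a) (p1 a) : ℝ)| ≤ Δ := by
    intro a ha
    obtain ⟨g, hg, h1, h2, h3, h4⟩ := key a ha
    have h5 := hq a ha
    have hgR : (1 : ℝ) ≤ (g : ℝ) := by exact_mod_cast hg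
    have e : qf c (j a) (a * j a) (p a) = g ^ 2 * qf (shiftc c t r) (j1 a) (a * j1 a) (p1 a) := by
      rw [qf_shift, ← qf_smul]
      have e1 : a * j a = g * (a * j1 a) := by rw [h1]; ring
      have e2 : p a = g * (p1 a + t * (a * j1 a) + r * j1 a) := by rw [h2]; ring
      rw [e1, e2, ← h1]
    have e' : (qf c (j a) (a * j a) (p a) : ℝ) =
        (g : ℝ) ^ 2 * (qf (shiftc c t r) (j1 a) (a * j1 a) (p1 a) : ℝ) := by exact_mod_cast e
    rw [e', abs_mul, abs_of_nonneg (by positivity)] at h5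
    have h6 : 0 ≤ |(qf (shiftc c t r) (j1 a) (a * j1 a) (p1 a) : ℝ)| := abs_nonneg _
    have h7 : (1 : ℝ) ≤ (g : ℝ) ^ 2 := one_le_pow₀ hgR
    nlinarith
  obtain ⟨d, j', p', hd, hj0, hjX, hjp, hjq⟩ := h01 A (θ - t) (ρ - r) X ε Δ S j1 p1 (shiftc c t r) hA hD hq1
  have hp2 : |((p' + t * j' : ℤ) : ℝ) - j' * θ| ≤ ε * A ^ (-(d : ℝ) - 1 + 60 * s) := by
    have e : ((p' + t * j' : ℤ) : ℝ) - j' * θ = (p' : ℝ) - j' * (θ - t) := by
      push_cast
      ring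
    rw [e]
    exact hjp
  have hq2 : |(qf c 0 j' (p' + t * j') : ℝ)| ≤ Δ * A ^ (-2 * (d : ℝ) - 2 + 60 * s) := by
    have e : qf c 0 j' (p' + t * j') = qf (shiftc c t r) 0 j' p' := by
      rw [qf_shift, mul_zero, add_zero]
    rw [e]
    exact hjq
  rcases lt_or_gt_of_ne hj0 with hneg | hpos
  · refine ⟨d, -j', -(p' + t * j'), hd, by omega, ?_, ?_, ?_⟩
    · have : ((-j' : ℤ) : ℝ) ≤ |(j' : ℝ)| := by
        push_cast
        exact neg_le_abs _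
      exact le_trans this hjX
    · have e : ((-(p' + t * j') : ℤ) : ℝ) - ((-j' : ℤ) : ℝ) * θ =
          -(((p' + t * j' : ℤ) : ℝ) - j' * θ) := by
        push_cast
        ring
      rw [e, abs_neg]
      exact hp2
    · rw [qf_neg]
      exact hq2
  · refine ⟨d, j', p' + t * j', hd, by omega, ?_, hp2, hq2⟩
    exact le_trans (le_abs_self _) hjX

end Pool.Agent.UHI
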