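import Pool.Agent.UHI.Stmts

set_option autoImplicit false

/-!
# NEST: nested intervals on which the density does not drop
-/

namespace Pool.Agent.UHI

namespace NESTaux

/-- the pieces cover the interval -/
theorem cover (v l a : ℝ) (M : ℕ) (hM : 1 ≤ M) (hl : 0 ≤ l) (h1 : v ≤ a) (h2 : a ≤ v + l) :
    ∃ i < M, v + i * (l / M) ≤ a ∧ a ≤ v + i * (l / M) + l / M := by
  have hM0 : (0 : ℝ) < M := by exact_mod_cast hM
  rcases hl.eq_or_lt with h0 | h0
  · refine ⟨0, hM, ?_, ?_⟩
    · rw [← h0]; simpa using h1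
    · rw [← h0]; rw [← h0] at h2; simpa using h2
  · set x : ℝ := (a - v) / (l / M) with hx
    have hlM : 0 < l / M := div_pos h0 hM0
    have hx0 : 0 ≤ x := div_nonneg (by linarith) hlM.le
    have hxa : x * (l / M) = a - v := div_mul_cancel₀ _ hlM.ne'
    by_cases hxM : x < M
    · refine ⟨⌊x⌋₊, (Nat.floor_lt hx0).2 hxM, ?_, ?_⟩
      · have h3 := Nat.floor_le hx0
        have h4 := mul_le_mul_of_nonneg_right h3 hlM.le
        linarith
      · have h3 := (Nat.lt_floor_add_one x).le
        have h4 := mul_le_mul_of_nonneg_right h3 hlM.le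
        linarith
    · push Not at hxM
      refine ⟨M - 1, by omega, ?_, ?_⟩
      · rw [Nat.cast_sub hM, Nat.cast_one]
        have h4 := mul_le_mul_of_nonneg_right hxM hlM.le
        linarith
      · rw [Nat.cast_sub hM, Nat.cast_one]
        have h5 : (M : ℝ) * (l / M) = l := mul_div_cancel₀ l hM0.ne'
        linarith

/-- one subdivision -/
theorem step (S : Finset ℤ) (v l r : ℝ) (M : ℕ) (hM : 1 ≤ M) (hl : 0 ≤ l)
    (h : r * l ≤ ((cut S v l).card : ℝ)) :
    ∃ v' : ℝ, v ≤ v' ∧ v' + l / M ≤ v + l ∧ r * (l / M) ≤ ((cut S v' (l / M)).card : ℝ) := by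
  classical
  have hM0 : (0 : ℝ) < M := by exact_mod_cast hM
  have hlM : 0 ≤ l / M := div_nonneg hl hM0.le
  have h5 : (M : ℝ) * (l / M) = l := mul_div_cancel₀ l hM0.ne'
  by_contra hc
  push Not at hc
  have h1 : ∀ i ∈ Finset.range M, ((cut S (v + i * (l / M)) (l / M)).card : ℝ) < r * (l / M) := by
    intro i hi
    rw [Finset.mem_range] at hi
    apply hc
    · have : (0 : ℝ) ≤ i * (l / M) := by positivity
      linarith
    · have h6 : ((i : ℝ) + 1) ≤ M := by exact_mod_cast hi
      have h7 := mul_le_mul_of_nonneg_right h6 hlM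
      linarith
  have h2 : ∑ i ∈ Finset.range M, ((cut S (v + i * (l / M)) (l / M)).card : ℝ) <
      ∑ _i ∈ Finset.range M, r * (l / M) :=
    Finset.sum_lt_sum_of_nonempty (Finset.nonempty_range_iff.2 (by omega)) h1
  rw [Finset.sum_const, Finset.card_range, nsmul_eq_mul] at h2
  have h3 : cut S v l ⊆ (Finset.range M).biUnion (fun i => cut S (v + i * (l / M)) (l / M)) := by
    intro a ha
    unfold cut at ha
    rw [Finset.mem_filter] at ha
    obtain ⟨i, hi, h6, h7⟩ := cover v l a M hM hl ha.2.1 ha.2.2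
    rw [Finset.mem_biUnion]
    refine ⟨i, Finset.mem_range.2 hi, ?_⟩
    unfold cut
    rw [Finset.mem_filter]
    exact ⟨ha.1, h6, h7⟩
  have h4 : ((cut S v l).card : ℝ) ≤
      ∑ i ∈ Finset.range M, ((cut S (v + i * (l / M)) (l / M)).card : ℝ) := by
    have h6 := (Finset.card_le_card h3).trans Finset.card_biUnion_le
    exact_mod_cast h6
  have h6 : (M : ℝ) * (r * (l / M)) = r * l := by
    calc (M : ℝ) * (r * (l / M)) = r * ((M : ℝ) * (l / M)) := by ring
      _ = r * l := by rw [h5]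
  linarith

end NESTaux

theorem m_NEST : Stmt_NEST := by
  intro S u L r M hM hL hS hr
  have hM0 : (0 : ℝ) < M := by exact_mod_cast hM
  set P : ℕ → ℝ → Prop := fun k v => r * (L / M ^ k) ≤ ((cut S v (L / M ^ k)).card : ℝ) with hP
  have h0 : P 0 u := by
    show r * (L / M ^ 0) ≤ ((cut S u (L / M ^ 0)).card : ℝ)
    rw [pow_zero, div_one]
    have h1 : cut S u L = S := by
      unfold cut
      rw [Finset.filter_eq_self]
      exact hS
    rw [h1]
    exact hr
  have hstep : ∀ k v, P k v → ∃ v', P (k + 1) v' ∧ v ≤ v' ∧ v' + L / M ^ (k + 1) ≤ v + L / M ^ k := by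
    intro k v hv
    obtain ⟨v', h1, h2, h3⟩ := NESTaux.step S v (L / M ^ k) r M hM (by positivity) hv
    have e : L / (M : ℝ) ^ k / M = L / M ^ (k + 1) := by
      rw [div_div, pow_succ]
    rw [e] at h2 h3
    exact ⟨v', h3, h1, h2⟩
  choose! g hg1 hg2 hg3 using hstep
  let f : ℕ → ℝ := fun k => Nat.rec u (fun k v => g k v) k
  have hf : ∀ k, P k (f k) := by
    intro k
    induction k with
    | zero => exact h0
    | succ k ih => exact hg1 k (f k) ih
  exact ⟨f, rfl, fun k => ⟨hg2 k (f k) (hf k), hg3 k (f k) (hf k), hf k⟩⟩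

end Pool.Agent.UHI
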