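import Pool.Agent.UHI.Stmts

namespace Pool.Agent.UHI

open Polynomial

namespace PRIMaux

/-- a polynomial whose multiples by `v` have all coefficients divisible by `m` -/
theorem dvd_content (F : ℤ[X]) (m v : ℤ) (h : ∀ k, m ∣ v * F.coeff k) : m ∣ v * F.content := by
  have h1 : C m ∣ C v * F := by
    rw [Polynomial.C_dvd_iff_dvd_coeff]
    intro k
    rw [Polynomial.coeff_C_mul]
    exact h k
  have h2 : m ∣ (C v * F).content := by
    exact Polynomial.dvd_content_iff_C_dvd.mpr h1
  rw [Polynomial.content_C_mul] at h2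
  have h3 : Associated (normalize v * F.content) (v * F.content) :=
    (normalize_associated v).mul_right _
  exact h3.dvd_iff_dvd_right.mp h2

theorem coprime_content (F G : ℤ[X]) (h : IsRelPrime G F) : IsCoprime F.content G.content := by
  rw [← isRelPrime_iff_isCoprime]
  intro d hd1 hd2
  have h1 : C d ∣ F := Polynomial.dvd_content_iff_C_dvd.mp hd1
  have h2 : C d ∣ G := Polynomial.dvd_content_iff_C_dvd.mp hd2
  have h3 := h h2 h1
  exact Polynomial.isUnit_C.mp h3

/-- a rational multiple of every nonzero rational polynomial is a primitive integral polynomial -/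
theorem exists_prim (d : ℚ[X]) (hd : d ≠ 0) : ∃ d' : ℤ[X], d'.IsPrimitive ∧
    Associated (d'.map (Int.castRingHom ℚ)) d := by
  obtain ⟨b, hbM, hb⟩ := IsLocalization.integerNormalization_spec (nonZeroDivisors ℤ) d
  set e := IsLocalization.integerNormalization (nonZeroDivisors ℤ) d with he
  have hb0 : (b : ℤ) ≠ 0 := nonZeroDivisors.ne_zero hbM
  have hmap : e.map (Int.castRingHom ℚ) = C ((b : ℤ) : ℚ) * d := by
    have h1 : e.map (algebraMap ℤ ℚ) = (b : ℤ) • d := hb
    rw [show Int.castRingHom ℚ = algebraMap ℤ ℚ from rfl, h1]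
    rw [zsmul_eq_mul]
    simp
  have hbQ : ((b : ℤ) : ℚ) ≠ 0 := by exact_mod_cast hb0
  have he0 : e ≠ 0 := by
    intro h0
    rw [h0, Polynomial.map_zero] at hmap
    have := mul_ne_zero (Polynomial.C_ne_zero.mpr hbQ) hd
    exact this hmap.symm
  have hc0 : e.content ≠ 0 := by
    rw [Ne, Polynomial.content_eq_zero_iff]; exact he0
  refine ⟨e.primPart, e.isPrimitive_primPart, ?_⟩
  have h2 : e.map (Int.castRingHom ℚ) = C ((e.content : ℤ) : ℚ) * e.primPart.map (Int.castRingHom ℚ) := by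
    conv_lhs => rw [e.eq_C_content_mul_primPart]
    rw [Polynomial.map_mul, Polynomial.map_C]
    rfl
  have hcQ : ((e.content : ℤ) : ℚ) ≠ 0 := by exact_mod_cast hc0
  have u1 : IsUnit (C ((e.content : ℤ) : ℚ)) := Polynomial.isUnit_C.mpr (isUnit_iff_ne_zero.mpr hcQ)
  have u2 : IsUnit (C ((b : ℤ) : ℚ)) := Polynomial.isUnit_C.mpr (isUnit_iff_ne_zero.mpr hbQ)
  have a1 : Associated (C ((e.content : ℤ) : ℚ) * e.primPart.map (Int.castRingHom ℚ))
      (e.primPart.map (Int.castRingHom ℚ)) := associated_unit_mul_left _ _ u1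
  have a2 : Associated (C ((b : ℤ) : ℚ) * d) d := associated_unit_mul_left _ _ u2
  have a3 : C ((e.content : ℤ) : ℚ) * e.primPart.map (Int.castRingHom ℚ) = C ((b : ℤ) : ℚ) * d := by
    rw [← h2, hmap]
  exact a1.symm.trans (a3 ▸ a2)

theorem dvd_of_map (d' F : ℤ[X]) (hd : d'.IsPrimitive)
    (h : d'.map (Int.castRingHom ℚ) ∣ F.map (Int.castRingHom ℚ)) : d' ∣ F := by
  by_cases hF : F = 0
  · rw [hF]; exact dvd_zero _
  have hc0 : F.content ≠ 0 := by
    rw [Ne, Polynomial.content_eq_zero_iff]; exact hF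
  have hcQ : ((F.content : ℤ) : ℚ) ≠ 0 := by exact_mod_cast hc0
  have u1 : IsUnit (C ((F.content : ℤ) : ℚ)) := Polynomial.isUnit_C.mpr (isUnit_iff_ne_zero.mpr hcQ)
  have h2 : F.map (Int.castRingHom ℚ) = C ((F.content : ℤ) : ℚ) * F.primPart.map (Int.castRingHom ℚ) := by
    conv_lhs => rw [F.eq_C_content_mul_primPart]
    rw [Polynomial.map_mul, Polynomial.map_C]
    rfl
  rw [h2] at h
  have h3 : d'.map (Int.castRingHom ℚ) ∣ F.primPart.map (Int.castRingHom ℚ) :=
    (u1.dvd_mul_left).mp h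
  have h4 : d' ∣ F.primPart :=
    (Polynomial.IsPrimitive.Int.dvd_iff_map_cast_dvd_map_cast d' F.primPart hd).mpr h3
  rw [F.eq_C_content_mul_primPart]
  exact h4.mul_left _

end PRIMaux

theorem m_PRIM : Stmt_PRIM := by
  intro F0 G0 hG0
  obtain ⟨G, F, h, hrel, hG, hF⟩ := UniqueFactorizationMonoid.exists_reduced_factors G0 hG0 F0
  have hG' : G ≠ 0 := by
    rintro rfl
    exact hG0 (by rw [← hG, mul_zero])
  refine ⟨h, F, G, ?_, hF.symm, hG.symm, ?_, ?_⟩
  · rintro rfl
    exact hG0 (by rw [← hG, zero_mul])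
  · rw [← isRelPrime_iff_isCoprime]
    intro d hd1 hd2
    have hd0 : d ≠ 0 := by
      rintro rfl
      have : G.map (Int.castRingHom ℚ) = 0 := zero_dvd_iff.mp hd2
      rw [Polynomial.map_eq_zero_iff (RingHom.injective_int (Int.castRingHom ℚ))] at this
      exact hG' this
    obtain ⟨d', hp, ha⟩ := PRIMaux.exists_prim d hd0
    have h1 : d' ∣ F := PRIMaux.dvd_of_map d' F hp (ha.dvd.trans hd1)
    have h2 : d' ∣ G := PRIMaux.dvd_of_map d' G hp (ha.dvd.trans hd2)
    have h3 : IsUnit d' := hrel h2 h1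
    have h4 : IsUnit (d'.map (Int.castRingHom ℚ)) := h3.map (Polynomial.mapRingHom (Int.castRingHom ℚ))
    exact ha.isUnit h4
  · intro m v h1 h2
    have e1 := PRIMaux.dvd_content F m v h1
    have e2 := PRIMaux.dvd_content G m v h2
    obtain ⟨a, b, hab⟩ := PRIMaux.coprime_content F G hrel
    have : v = a * (v * F.content) + b * (v * G.content) := by
      calc v = v * (a * F.content + b * G.content) := by rw [hab, mul_one]
        _ = _ := by ring
    rw [this]
    exact dvd_add (e1.mul_left a) (e2.mul_left b)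

end Pool.Agent.UHI
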