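import Pool.Agent.UHI.Stmts

/-!
# SIEG: pigeonhole for four linear forms in three integer unknowns
-/

namespace Pool.Agent.UHI

namespace SIEGaux

/-- two reals whose fractional parts lie in the same box -/
lemma box {u v : ℝ} {N : ℕ} (hN : 0 < N)
    (h : ⌊Int.fract u * N⌋₊ = ⌊Int.fract v * N⌋₊) :
    |(((⌊u⌋ - ⌊v⌋ : ℤ)) : ℝ) - (u - v)| ≤ 1 / N := by
  have hN' : (0 : ℝ) < N := by exact_mod_cast hN
  have hu0 : 0 ≤ Int.fract u * N := mul_nonneg (Int.fract_nonneg u) hN'.le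
  have hv0 : 0 ≤ Int.fract v * N := mul_nonneg (Int.fract_nonneg v) hN'.le
  have h1 := Nat.floor_le hu0
  have h2 := Nat.lt_floor_add_one (Int.fract u * N)
  have h3 := Nat.floor_le hv0
  have h4 := Nat.lt_floor_add_one (Int.fract v * N)
  rw [h] at h1 h2
  have e : (((⌊u⌋ - ⌊v⌋ : ℤ)) : ℝ) - (u - v) = Int.fract v - Int.fract u := by
    have a1 := Int.floor_add_fract u
    have a2 := Int.floor_add_fract v
    push_cast
    linarith
  rw [e, abs_le]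
  constructor
  · rw [← sub_nonneg]
    have : 0 ≤ (Int.fract v - Int.fract u - -(1 / N)) * N := by
      have : (Int.fract v - Int.fract u - -(1 / N)) * N = Int.fract v * N - Int.fract u * N + 1 := by
        field_simp
        ring
      rw [this]
      linarith
    exact nonneg_of_mul_nonneg_left this hN'
  · rw [← sub_nonneg]
    have : 0 ≤ (1 / N - (Int.fract v - Int.fract u)) * N := by
      have : (1 / N - (Int.fract v - Int.fract u)) * N = 1 - (Int.fract v * N - Int.fract u * N) := by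
        field_simp
      rw [this]
      linarith
    exact nonneg_of_mul_nonneg_left this hN'

/-- the box number lies below `N` -/
lemma box_lt (u : ℝ) {N : ℕ} (hN : 0 < N) : ⌊Int.fract u * N⌋₊ < N := by
  have hN' : (0 : ℝ) < N := by exact_mod_cast hN
  rw [Nat.floor_lt (mul_nonneg (Int.fract_nonneg u) hN'.le)]
  have := Int.fract_lt_one u
  nlinarith

/-- the number of boxes -/
lemma ceil_le {y : ℝ} (hy : 1 ≤ y) : ((⌈32 * y⌉₊ : ℕ) : ℝ) ≤ 33 * y := by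
  have := Nat.ceil_lt_add_one (a := 32 * y) (by linarith)
  linarith

/-- difference of two naturals below a bound -/
lemma diff_le {a b M : ℕ} {Y : ℝ} (ha : a ≤ M) (hb : b ≤ M) (hM : (M : ℝ) ≤ Y) :
    |(((a : ℤ) - (b : ℤ) : ℤ) : ℝ)| ≤ Y := by
  have ha' : (a : ℝ) ≤ M := by exact_mod_cast ha
  have hb' : (b : ℝ) ≤ M := by exact_mod_cast hb
  have ha0 : (0 : ℝ) ≤ a := Nat.cast_nonneg a
  have hb0 : (0 : ℝ) ≤ b := Nat.cast_nonneg b
  push_cast
  rw [abs_le]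
  constructor <;> linarith

end SIEGaux

open SIEGaux in
theorem m_SIEG : Stmt_SIEG := by
  intro X L θ ρ hX hL
  have hX0 : (0 : ℝ) < X := by linarith
  have hL0 : (0 : ℝ) < L := by linarith
  set Z : ℝ := X ^ (4 / 3 : ℝ) with hZ
  have hZ0 : 0 < Z := Real.rpow_pos_of_pos hX0 _
  have hZ3 : Z ^ 3 = X ^ 4 := by
    rw [hZ, ← Real.rpow_natCast, ← Real.rpow_mul hX0.le, ← Real.rpow_natCast]
    norm_num
  -- boxes
  have hL1 : 1 ≤ X * L := by nlinarith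
  have hL2 : 1 ≤ X * L ^ 2 := by nlinarith
  have hL3 : 1 ≤ X * L ^ 3 := by nlinarith
  set N0 : ℕ := ⌈32 * X⌉₊ with hN0
  set N1 : ℕ := ⌈32 * (X * L)⌉₊ with hN1
  set N2 : ℕ := ⌈32 * (X * L ^ 2)⌉₊ with hN2
  set N3 : ℕ := ⌈32 * (X * L ^ 3)⌉₊ with hN3
  have b0 : (N0 : ℝ) ≤ 33 * X := ceil_le hX
  have b1 : (N1 : ℝ) ≤ 33 * (X * L) := ceil_le hL1
  have b2 : (N2 : ℝ) ≤ 33 * (X * L ^ 2) := ceil_le hL2
  have b3 : (N3 : ℝ) ≤ 33 * (X * L ^ 3) := ceil_le hL3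
  have c0 : 32 * X ≤ (N0 : ℝ) := Nat.le_ceil _
  have c1 : 32 * (X * L) ≤ (N1 : ℝ) := Nat.le_ceil _
  have c2 : 32 * (X * L ^ 2) ≤ (N2 : ℝ) := Nat.le_ceil _
  have c3 : 32 * (X * L ^ 3) ≤ (N3 : ℝ) := Nat.le_ceil _
  have p0 : 0 < N0 := by
    have : (0 : ℝ) < N0 := by linarith
    exact_mod_cast this
  have p1 : 0 < N1 := by
    have : (0 : ℝ) < N1 := by linarith
    exact_mod_cast this
  have p2 : 0 < N2 := by
    have : (0 : ℝ) < N2 := by linarith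
    exact_mod_cast this
  have p3 : 0 < N3 := by
    have : (0 : ℝ) < N3 := by linarith
    exact_mod_cast this
  -- ranges of the unknowns
  set M0 : ℕ := ⌊1000 * Z * L ^ 3⌋₊ with hM0
  set M1 : ℕ := ⌊1000 * Z * L ^ 2⌋₊ with hM1
  set M2 : ℕ := ⌊1000 * Z * L⌋₊ with hM2
  have d0 : 1000 * Z * L ^ 3 < M0 + 1 := Nat.lt_floor_add_one _
  have d1 : 1000 * Z * L ^ 2 < M1 + 1 := Nat.lt_floor_add_one _
  have d2 : 1000 * Z * L < M2 + 1 := Nat.lt_floor_add_one _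
  have e0 : (M0 : ℝ) ≤ 1000 * Z * L ^ 3 := Nat.floor_le (by positivity)
  have e1 : (M1 : ℝ) ≤ 1000 * Z * L ^ 2 := Nat.floor_le (by positivity)
  have e2 : (M2 : ℝ) ≤ 1000 * Z * L := Nat.floor_le (by positivity)
  -- the count
  have hcount : N0 * (N1 * (N2 * N3)) < (M0 + 1) * ((M1 + 1) * (M2 + 1)) := by
    have h1 : (N0 : ℝ) * (N1 * (N2 * N3)) ≤
        (33 * X) * ((33 * (X * L)) * ((33 * (X * L ^ 2)) * (33 * (X * L ^ 3)))) := by
      gcongr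
    have h2 : (1000 * Z * L ^ 3) * ((1000 * Z * L ^ 2) * (1000 * Z * L)) ≤
        ((M0 : ℝ) + 1) * ((M1 + 1) * (M2 + 1)) := by
      gcongr
    have h3 : (33 * X) * ((33 * (X * L)) * ((33 * (X * L ^ 2)) * (33 * (X * L ^ 3)))) =
        1185921 * (X ^ 4 * L ^ 6) := by ring
    have h4 : (1000 * Z * L ^ 3) * ((1000 * Z * L ^ 2) * (1000 * Z * L)) =
        1000000000 * (X ^ 4 * L ^ 6) := by
      rw [← hZ3]
      ring
    have h5 : 0 < X ^ 4 * L ^ 6 := by positivity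
    have h6 : ((N0 * (N1 * (N2 * N3)) : ℕ) : ℝ) < (((M0 + 1) * ((M1 + 1) * (M2 + 1)) : ℕ) : ℝ) := by
      push_cast
      nlinarith
    exact_mod_cast h6
  -- pigeonhole
  let s : Finset (ℕ × ℕ × ℕ) :=
    Finset.range (M0 + 1) ×ˢ (Finset.range (M1 + 1) ×ˢ Finset.range (M2 + 1))
  let t : Finset (ℕ × ℕ × ℕ × ℕ) :=
    Finset.range N0 ×ˢ (Finset.range N1 ×ˢ (Finset.range N2 ×ˢ Finset.range N3))
  let f : ℕ × ℕ × ℕ → ℕ × ℕ × ℕ × ℕ := fun g =>
    (⌊Int.fract (ρ * g.1) * N0⌋₊, ⌊Int.fract (θ * g.1 + ρ * g.2.1) * N1⌋₊,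
      ⌊Int.fract (θ * g.2.1 + ρ * g.2.2) * N2⌋₊, ⌊Int.fract (θ * g.2.2) * N3⌋₊)
  have hst : t.card < s.card := by
    simp only [s, t, Finset.card_product, Finset.card_range]
    exact hcount
  have hf : ∀ g ∈ s, f g ∈ t := by
    intro g _
    simp only [t, f, Finset.mem_product, Finset.mem_range]
    exact ⟨box_lt _ p0, box_lt _ p1, box_lt _ p2, box_lt _ p3⟩
  obtain ⟨x, hx, y, hy, hxy, hfxy⟩ := Finset.exists_ne_map_eq_of_card_lt_of_maps_to hst hf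
  obtain ⟨x0, x1, x2⟩ := x
  obtain ⟨y0, y1, y2⟩ := y
  simp only [s, Finset.mem_product, Finset.mem_range] at hx hy
  simp only [f, Prod.mk.injEq] at hfxy
  obtain ⟨k0, k1, k2, k3⟩ := hfxy
  obtain ⟨hx0, hx1, hx2⟩ := hx
  obtain ⟨hy0, hy1, hy2⟩ := hy
  have r0 := box p0 k0
  have r1 := box p1 k1
  have r2 := box p2 k2
  have r3 := box p3 k3
  have q0 : (1 : ℝ) / N0 ≤ 1 / (32 * X) := one_div_le_one_div_of_le (by positivity) c0
  have q1 : (1 : ℝ) / N1 ≤ 1 / (32 * X * L) :=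
    one_div_le_one_div_of_le (by positivity) (by linarith)
  have q2 : (1 : ℝ) / N2 ≤ 1 / (32 * X * L ^ 2) :=
    one_div_le_one_div_of_le (by positivity) (by linarith)
  have q3 : (1 : ℝ) / N3 ≤ 1 / (32 * X * L ^ 3) :=
    one_div_le_one_div_of_le (by positivity) (by linarith)
  refine ⟨(x0 : ℤ) - y0, (x1 : ℤ) - y1, (x2 : ℤ) - y2, ⌊ρ * x0⌋ - ⌊ρ * y0⌋,
    ⌊θ * x0 + ρ * x1⌋ - ⌊θ * y0 + ρ * y1⌋, ⌊θ * x1 + ρ * x2⌋ - ⌊θ * y1 + ρ * y2⌋,
    ⌊θ * x2⌋ - ⌊θ * y2⌋, ?_, ?_, ?_, ?_, ?_, ?_, ?_, ?_⟩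
  · by_contra hcon
    push Not at hcon
    obtain ⟨z0, z1, z2⟩ := hcon
    apply hxy
    have w0 : x0 = y0 := by omega
    have w1 : x1 = y1 := by omega
    have w2 : x2 = y2 := by omega
    rw [w0, w1, w2]
  · exact diff_le (Nat.lt_succ_iff.mp hx0) (Nat.lt_succ_iff.mp hy0) e0
  · exact diff_le (Nat.lt_succ_iff.mp hx1) (Nat.lt_succ_iff.mp hy1) e1
  · exact diff_le (Nat.lt_succ_iff.mp hx2) (Nat.lt_succ_iff.mp hy2) e2
  · refine le_trans (le_of_eq ?_) (le_trans r0 q0)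
    congr 1
    push_cast
    ring
  · refine le_trans (le_of_eq ?_) (le_trans r1 q1)
    congr 1
    push_cast
    ring
  · refine le_trans (le_of_eq ?_) (le_trans r2 q2)
    congr 1
    push_cast
    ring
  · refine le_trans (le_of_eq ?_) (le_trans r3 q3)
    congr 1
    push_cast
    ring

end Pool.Agent.UHI
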