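import Pool.Agent.UHI.Stmts

/-!
# STEP of the inverse theorem (MP_c538e3_nt, lower bound 1/3)
From `[v, v + l]` to `[u, u + L]`: Lagrange interpolation on four well spaced points of the small
interval bounds `G` and `F - f G` on the large one, so `j_a F(a) = p_a G(a)` on the whole of `S`
there, and the gcd bound is proved again by `Stmt_GCD`.
-/

namespace Pool.Agent.UHI

open Polynomial

namespace STEPaux

lemma z_bound {A : ℝ} (hA : (256 : ℝ) ^ (50 : ℕ) ≤ A) : 256 ≤ A ^ (1 / 50 : ℝ) := by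
  have h : ((256 : ℝ) ^ (50 : ℕ)) ^ (1 / 50 : ℝ) = 256 := by
    rw [← Real.rpow_natCast, ← Real.rpow_mul (by norm_num)]
    norm_num
  rw [← h]
  exact Real.rpow_le_rpow (by positivity) hA (by norm_num)

lemma mem_gset {K : ℝ} {F G : ℤ[X]} {j p : ℤ → ℤ} {T : Finset ℤ} {a : ℤ} :
    a ∈ gset K F G j p T ↔ a ∈ T ∧ ∃ g : ℤ, g ≠ 0 ∧ |(g : ℝ)| ≤ K ∧ G.eval a = g * j a ∧
      F.eval a = g * p a := by
  simp [gset]

lemma mem_cut {S : Finset ℤ} {u L : ℝ} {a : ℤ} :
    a ∈ cut S u L ↔ a ∈ S ∧ u ≤ (a : ℝ) ∧ (a : ℝ) ≤ u + L := by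
  simp [cut]

/-- the real polynomial `F - (θ x + ρ) G` -/
noncomputable def FG (θ ρ : ℝ) (F G : ℤ[X]) : ℝ[X] :=
  F.map (Int.castRingHom ℝ) - (C θ * X + C ρ) * G.map (Int.castRingHom ℝ)

lemma FG_natDegree (θ ρ : ℝ) (F G : ℤ[X]) (hF : F.natDegree ≤ 3) (hG : G.natDegree ≤ 2) :
    (FG θ ρ F G).natDegree ≤ 3 := by
  unfold FG
  refine (natDegree_sub_le _ _).trans (max_le ?_ ?_)
  · exact (natDegree_map_le).trans hF
  · refine (natDegree_mul_le).trans ?_
    have h1 : (C θ * X + C ρ : ℝ[X]).natDegree ≤ 1 := natDegree_linear_le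
    have h2 : (G.map (Int.castRingHom ℝ)).natDegree ≤ 2 := (natDegree_map_le).trans hG
    omega

lemma eval_map_int (F : ℤ[X]) (a : ℤ) :
    (F.map (Int.castRingHom ℝ)).eval (a : ℝ) = ((F.eval a : ℤ) : ℝ) := by
  rw [Polynomial.eval_intCast_map]; simp

lemma FG_eval (θ ρ : ℝ) (F G : ℤ[X]) (a : ℤ) :
    (FG θ ρ F G).eval (a : ℝ) = ((F.eval a : ℤ) : ℝ) - (θ * a + ρ) * ((G.eval a : ℤ) : ℝ) := by
  unfold FG
  rw [eval_sub, eval_mul, eval_map_int, eval_map_int]
  simp

/-- no common zero -/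
lemma no_zero {F G : ℤ[X]} (hP : Prim F G) (a : ℤ) (h1 : F.eval a = 0) (h2 : G.eval a = 0) :
    False := by
  obtain ⟨u, v, huv⟩ := hP.1
  have h := congrArg (fun q => Polynomial.eval (a : ℚ) q) huv
  simp only [eval_add, eval_mul, eval_one, Polynomial.eval_intCast_map] at h
  simp [h1, h2] at h

lemma gcd_eq {g x y : ℤ} (h : IsCoprime x y) : (Int.gcd (g * y) (g * x) : ℤ) = |g| := by
  have : Int.gcd y x = 1 := by
    rw [Int.gcd_comm]; exact Int.isCoprime_iff_gcd_eq_one.1 h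
  rw [Int.gcd_mul_left, this]; simp

end STEPaux

open STEPaux

theorem m_STEP : Stmt_GCD → Stmt_SPR → Stmt_LAGV → Stmt_LAGA → Stmt_STEP := by
  intro hGCD hSPR hLAGV hLAGA C s hC hs0 hs1
  obtain ⟨A1, hA1, hGc⟩ := hGCD (C + 6) s (by linarith) hs0
  refine ⟨max A1 (max ((256 : ℝ) ^ (50 : ℕ)) ((2 : ℝ) ^ (1 / s))), le_max_of_le_left hA1, ?_⟩
  intro A θ ρ X ε S j p hA0 hD F G hF hG hP v l u L hl huv hvl hLl hLA hcS hcT
  have hA1' : A1 ≤ A := (le_max_left _ _).trans hA0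
  have hA2 : (256 : ℝ) ^ (50 : ℕ) ≤ A := ((le_max_left _ _).trans (le_max_right _ _)).trans hA0
  have hA3 : (2 : ℝ) ^ (1 / s) ≤ A := ((le_max_right _ _).trans (le_max_right _ _)).trans hA0
  have hA100 : (100 : ℝ) ≤ A := le_trans (by norm_num) hA2
  have hApos : 0 < A := by linarith
  have hAge1 : 1 ≤ A := by linarith
  have hz := z_bound hA2
  -- powers of A
  have hAs2 : 2 ≤ A ^ s := by
    have h := Real.rpow_le_rpow (by positivity) hA3 hs0.le
    rw [← Real.rpow_mul (by norm_num), one_div, inv_mul_cancel₀ hs0.ne', Real.rpow_one] at h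
    exact h
  have hlL : l ≤ L := by linarith
  have hlpos : 0 < l := lt_of_lt_of_le (Real.rpow_pos_of_pos hApos _) hl
  have hLpos : 0 < L := by linarith
  have hAs : 0 < A ^ s := Real.rpow_pos_of_pos hApos _
  have hAms : A ^ (-s) = 1 / A ^ s := by rw [Real.rpow_neg hApos.le, one_div]
  have hAmspos : 0 < A ^ (-s) := Real.rpow_pos_of_pos hApos _
  -- A^(-s) l is large
  have hbig : 256 ≤ A ^ (-s) * l := by
    have h1 : A ^ (1 / 50 : ℝ) ≤ A ^ (-s) * A ^ (1 / 25 : ℝ) := by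
      rw [← Real.rpow_add hApos]
      exact Real.rpow_le_rpow_of_exponent_le hAge1 (by linarith)
    have h2 : A ^ (-s) * A ^ (1 / 25 : ℝ) ≤ A ^ (-s) * l :=
      mul_le_mul_of_nonneg_left hl hAmspos.le
    linarith
  set K : ℝ := A ^ (19 * s) with hK
  have hKpos : 0 < K := Real.rpow_pos_of_pos hApos _
  set T0 := gset K F G j p (cut S v l) with hT0
  -- the spacing
  set m : ℕ := ⌊A ^ (-s) * l / 8⌋₊ with hm
  have hm1 : (m : ℝ) ≤ A ^ (-s) * l / 8 := Nat.floor_le (by positivity)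
  have hm2 : A ^ (-s) * l / 16 ≤ (m : ℝ) := by
    have := Nat.lt_floor_add_one (A ^ (-s) * l / 8)
    rw [← hm] at this
    linarith
  have hmpos : (0 : ℝ) < m := by linarith
  have hmge : 1 ≤ m := by exact_mod_cast hmpos
  have hcard : 3 * m + 1 ≤ T0.card := by
    have h : ((3 * m + 1 : ℕ) : ℝ) ≤ (T0.card : ℝ) := by
      push_cast
      linarith
    exact_mod_cast h
  obtain ⟨a, haT, hsp⟩ := hSPR 3 m T0 hcard
  have hX1 := hD.hX1
  have hXpos : 0 < X := by linarith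
  have hε := hD.hε
  -- values at the four points
  have hval : ∀ i ≤ 3, |((G.eval (a i) : ℤ) : ℝ)| ≤ K * X ∧
      |((F.eval (a i) : ℤ) : ℝ) - (θ * (a i) + ρ) * ((G.eval (a i) : ℤ) : ℝ)| ≤ K * ε ∧
      |((F.eval (a i) : ℤ) : ℝ)| ≤ K * (X * (A + 1) + ε) := by
    intro i hi
    obtain ⟨h1, g, hg0, hgK, hgG, hgF⟩ := mem_gset.1 (haT i hi)
    have haS : a i ∈ S := (mem_cut.1 h1).1
    have hj1 : (1 : ℝ) ≤ (j (a i) : ℝ) := by exact_mod_cast hD.hj1 _ haS
    have hjX := hD.hjX _ haS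
    have hap := hD.hap _ haS
    have hSA := hD.hS _ haS
    have hjabs : |((j (a i) : ℤ) : ℝ)| ≤ X := by rw [abs_of_nonneg (by linarith)]; exact hjX
    have hlin : |θ * (a i : ℝ) + ρ| ≤ A + 1 := by
      rw [abs_of_nonneg (add_nonneg (mul_nonneg hD.hθ0 (by linarith)) hD.hρ0)]
      have : θ * (a i : ℝ) ≤ 1 * A := mul_le_mul hD.hθ1 hSA.2 (by linarith) zero_le_one
      linarith [hD.hρ1]
    have hpabs : |((p (a i) : ℤ) : ℝ)| ≤ X * (A + 1) + ε := by
      have h3 : ((p (a i) : ℤ) : ℝ) = (((p (a i) : ℤ) : ℝ) - j (a i) * (θ * (a i) + ρ)) +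
          j (a i) * (θ * (a i) + ρ) := by ring
      rw [h3]
      refine (abs_add_le _ _).trans ?_
      rw [abs_mul]
      have : |((j (a i) : ℤ) : ℝ)| * |θ * (a i : ℝ) + ρ| ≤ X * (A + 1) :=
        mul_le_mul hjabs hlin (abs_nonneg _) hXpos.le
      linarith
    refine ⟨?_, ?_, ?_⟩
    · rw [hgG]; push_cast; rw [abs_mul]
      exact mul_le_mul hgK hjabs (abs_nonneg _) hKpos.le
    · rw [hgG, hgF]; push_cast
      have : (g : ℝ) * (p (a i) : ℝ) - (θ * (a i : ℝ) + ρ) * ((g : ℝ) * (j (a i) : ℝ)) =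
          g * ((p (a i) : ℝ) - j (a i) * (θ * (a i) + ρ)) := by ring
      rw [this, abs_mul]
      exact mul_le_mul hgK hap (abs_nonneg _) hKpos.le
    · rw [hgF]; push_cast; rw [abs_mul]
      exact mul_le_mul hgK hpabs (abs_nonneg _) hKpos.le
  have haI : ∀ i ≤ 3, u ≤ ((a i : ℤ) : ℝ) ∧ ((a i : ℤ) : ℝ) ≤ u + L := by
    intro i hi
    have h1 := (mem_cut.1 (mem_gset.1 (haT i hi)).1).2
    constructor <;> linarith [h1.1, h1.2]
  have haA : ∀ i ≤ 3, |((a i : ℤ) : ℝ)| ≤ A := by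
    intro i hi
    have h1 := hD.hS _ (mem_cut.1 (mem_gset.1 (haT i hi)).1).1
    rw [abs_of_nonneg (by linarith)]; exact h1.2
  have hspR : ∀ i < 3, ((a i : ℤ) : ℝ) + (m : ℝ) ≤ ((a (i + 1) : ℤ) : ℝ) := by
    intro i hi
    exact_mod_cast hsp i hi
  have hsp1 : ∀ i < 3, a i + 1 ≤ a (i + 1) := by
    intro i hi
    have := hsp i hi
    have h2 : (1 : ℤ) ≤ (m : ℤ) := by exact_mod_cast hmge
    linarith
  -- the ratio L / m
  have hratio : (L / m) ^ 3 ≤ 4096 * A ^ (1 / 5 + 3 * s) := by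
    have h1 : L / m ≤ 16 * A ^ (1 / 15 + s) := by
      rw [div_le_iff₀ hmpos]
      have h2 : 16 * A ^ (1 / 15 + s) * (A ^ (-s) * l / 16) ≤ 16 * A ^ (1 / 15 + s) * (m : ℝ) :=
        mul_le_mul_of_nonneg_left hm2 (by positivity)
      have h3 : 16 * A ^ (1 / 15 + s) * (A ^ (-s) * l / 16) = A ^ (1 / 15 : ℝ) * l := by
        have : A ^ (1 / 15 + s) * A ^ (-s) = A ^ (1 / 15 : ℝ) := by
          rw [← Real.rpow_add hApos]; congr 1; ring
        calc 16 * A ^ (1 / 15 + s) * (A ^ (-s) * l / 16) = (A ^ (1 / 15 + s) * A ^ (-s)) * l := by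
              ring
          _ = _ := by rw [this]
      linarith
    have h4 : (16 * A ^ (1 / 15 + s)) ^ 3 = 4096 * A ^ (1 / 5 + 3 * s) := by
      rw [mul_pow, ← Real.rpow_natCast (A ^ (1 / 15 + s)) 3, ← Real.rpow_mul hApos.le]
      norm_num
      congr 1
      ring
    rw [← h4]
    exact pow_le_pow_left₀ (by positivity) h1 3
  have hKA : K * A ^ (1 / 5 + 3 * s) = A ^ (1 / 5 + 22 * s) := by
    rw [hK, ← Real.rpow_add hApos]; congr 1; ring
  set E : ℝ := A ^ (1 / 5 + 22 * s) with hE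
  have hEpos : 0 < E := Real.rpow_pos_of_pos hApos _
  -- bounds on the whole interval
  have hint : ∀ x : ℤ, u ≤ (x : ℝ) → (x : ℝ) ≤ u + L →
      |((G.eval x : ℤ) : ℝ)| ≤ 16384 * X * E ∧
      |((F.eval x : ℤ) : ℝ) - (θ * x + ρ) * ((G.eval x : ℤ) : ℝ)| ≤ 16384 * ε * E := by
    intro x hx1 hx2
    have hW : ∀ i ≤ 3, |(x : ℝ) - ((a i : ℤ) : ℝ)| ≤ L := by
      intro i hi
      have := haI i hi
      rw [abs_le]; constructor <;> linarith [this.1, this.2]
    constructor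
    · have h := hLAGV 3 (G.map (Int.castRingHom ℝ)) (K * X) m L x a
        ((natDegree_map_le).trans (hG.trans (by norm_num))) hmpos hspR
        (fun i hi => by rw [eval_map_int]; exact (hval i hi).1) hW
      rw [eval_map_int] at h
      refine h.trans ?_
      have h2 : ((3 : ℕ) + 1 : ℝ) * (K * X) * (L / m) ^ 3 ≤
          ((3 : ℕ) + 1 : ℝ) * (K * X) * (4096 * A ^ (1 / 5 + 3 * s)) :=
        mul_le_mul_of_nonneg_left hratio (by positivity)
      refine h2.trans (le_of_eq ?_)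
      rw [← hKA]; push_cast; ring
    · have h := hLAGV 3 (FG θ ρ F G) (K * ε) m L x a
        (FG_natDegree θ ρ F G hF hG) hmpos hspR
        (fun i hi => by rw [FG_eval]; exact (hval i hi).2.1) hW
      rw [FG_eval] at h
      refine h.trans ?_
      have h2 : ((3 : ℕ) + 1 : ℝ) * (K * ε) * (L / m) ^ 3 ≤
          ((3 : ℕ) + 1 : ℝ) * (K * ε) * (4096 * A ^ (1 / 5 + 3 * s)) :=
        mul_le_mul_of_nonneg_left hratio (by positivity)
      refine h2.trans (le_of_eq ?_)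
      rw [← hKA]; push_cast; ring
  -- smallness of X * ε * E
  have hXεE : 32768 * X * ε * E < 1 := by
    have hX43 : X ≤ X ^ (4 / 3 : ℝ) := by
      have := Real.rpow_le_rpow_of_exponent_le hX1 (show (1 : ℝ) ≤ 4 / 3 by norm_num)
      rwa [Real.rpow_one] at this
    have h1 : ε * X * A ^ (1 / 4 : ℝ) ≤ 1 := by
      refine le_trans ?_ hD.hH
      have : ε * X ≤ ε * X ^ (4 / 3 : ℝ) := mul_le_mul_of_nonneg_left hX43 hε.le
      exact mul_le_mul_of_nonneg_right this (Real.rpow_nonneg hApos.le _)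
    have h2 : A ^ (1 / 4 : ℝ) = A ^ (1 / 50 : ℝ) * A ^ (1 / 50 : ℝ) * A ^ (21 / 100 : ℝ) := by
      rw [← Real.rpow_add hApos, ← Real.rpow_add hApos]; norm_num
    have h3 : E ≤ A ^ (21 / 100 : ℝ) := by
      rw [hE]; exact Real.rpow_le_rpow_of_exponent_le hAge1 (by linarith)
    have h4 : ε * X * E * 65536 ≤ 1 := by
      have h5 : E * 65536 ≤ A ^ (1 / 4 : ℝ) := by
        rw [h2]
        have h6 : (65536 : ℝ) ≤ A ^ (1 / 50 : ℝ) * A ^ (1 / 50 : ℝ) := by nlinarith
        have := mul_le_mul h6 h3 hEpos.le (by positivity)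
        linarith
      calc ε * X * E * 65536 = ε * X * (E * 65536) := by ring
        _ ≤ ε * X * A ^ (1 / 4 : ℝ) := mul_le_mul_of_nonneg_left h5 (by positivity)
        _ ≤ 1 := h1
    nlinarith
  -- the relation on the large interval
  have hrel : ∀ x ∈ cut S u L, ∃ g : ℤ, g ≠ 0 ∧ G.eval x = g * j x ∧ F.eval x = g * p x := by
    intro x hx
    obtain ⟨hxS, hx1, hx2⟩ := mem_cut.1 hx
    obtain ⟨hG1, hF1⟩ := hint x hx1 hx2
    have hj1 : (1 : ℝ) ≤ (j x : ℝ) := by exact_mod_cast hD.hj1 _ hxS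
    have hjX := hD.hjX _ hxS
    have hap := hD.hap _ hxS
    have heq : j x * F.eval x = p x * G.eval x := by
      have h1 : |((j x * F.eval x - p x * G.eval x : ℤ) : ℝ)| < 1 := by
        push_cast
        have h2 : (j x : ℝ) * ((F.eval x : ℤ) : ℝ) - (p x : ℝ) * ((G.eval x : ℤ) : ℝ) =
            (j x : ℝ) * (((F.eval x : ℤ) : ℝ) - (θ * x + ρ) * ((G.eval x : ℤ) : ℝ)) -
            ((p x : ℝ) - j x * (θ * x + ρ)) * ((G.eval x : ℤ) : ℝ) := by ring
        rw [h2]
        refine lt_of_le_of_lt (abs_sub _ _) ?_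
        rw [abs_mul, abs_mul]
        have h3 : |(j x : ℝ)| * |((F.eval x : ℤ) : ℝ) - (θ * x + ρ) * ((G.eval x : ℤ) : ℝ)| ≤
            X * (16384 * ε * E) := by
          refine mul_le_mul ?_ hF1 (abs_nonneg _) hXpos.le
          rw [abs_of_nonneg (by linarith)]; exact hjX
        have h4 : |(p x : ℝ) - j x * (θ * x + ρ)| * |((G.eval x : ℤ) : ℝ)| ≤
            ε * (16384 * X * E) := mul_le_mul hap hG1 (abs_nonneg _) hε.le
        linarith
      have h5 : |(j x * F.eval x - p x * G.eval x : ℤ)| < 1 := by exact_mod_cast h1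
      have h6 : j x * F.eval x - p x * G.eval x = 0 := Int.abs_lt_one_iff.1 h5
      linarith
    have hjne : j x ≠ 0 := by
      have := hD.hj1 _ hxS; omega
    have hdvd : j x ∣ G.eval x := by
      have : j x ∣ p x * G.eval x := ⟨F.eval x, heq.symm⟩
      exact (hD.hco _ hxS).dvd_of_dvd_mul_left this
    obtain ⟨g, hg⟩ := hdvd
    have hgF : F.eval x = g * p x := by
      have : j x * F.eval x = j x * (g * p x) := by rw [heq, hg]; ring
      exact mul_left_cancel₀ hjne this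
    have hgG : G.eval x = g * j x := by rw [hg]; ring
    refine ⟨g, ?_, hgG, hgF⟩
    rintro rfl
    exact no_zero hP x (by rw [hgF]; ring) (by rw [hgG]; ring)
  -- coefficients
  have hK1 : K ≤ A := by
    rw [hK]
    calc A ^ (19 * s) ≤ A ^ (1 : ℝ) := Real.rpow_le_rpow_of_exponent_le hAge1 (by linarith)
      _ = A := Real.rpow_one A
  have hXA := hD.hXA
  have hε1 : ε ≤ 1 := by
    have h1 : 1 ≤ X ^ (4 / 3 : ℝ) * A ^ (1 / 4 : ℝ) :=
      one_le_mul_of_one_le_of_one_le (Real.one_le_rpow hX1 (by norm_num))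
        (Real.one_le_rpow hAge1 (by norm_num))
    have h2 := hD.hH
    nlinarith
  have hpow : 4 * (K * (X * (A + 1) + ε)) * (1 + A) ^ 3 ≤ A ^ (C + 6) := by
    have h1 : X * (A + 1) + ε ≤ X * (3 * A) := by nlinarith
    have h2 : (1 + A) ^ 3 ≤ (2 * A) ^ 3 := pow_le_pow_left₀ (by positivity) (by linarith) 3
    have h3 : 4 * (K * (X * (A + 1) + ε)) * (1 + A) ^ 3 ≤ 4 * (A * (A ^ C * (3 * A))) * (2 * A) ^ 3 := by
      have h4 : K * (X * (A + 1) + ε) ≤ A * (A ^ C * (3 * A)) := by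
        refine mul_le_mul hK1 (h1.trans ?_) (by positivity) hApos.le
        exact mul_le_mul_of_nonneg_right hXA (by positivity)
      refine mul_le_mul (by linarith) h2 (by positivity) (by positivity)
    refine h3.trans ?_
    have h5 : 4 * (A * (A ^ C * (3 * A))) * (2 * A) ^ 3 = A ^ C * (96 * A ^ 5) := by ring
    have h6 : A ^ (C + 6) = A ^ C * A ^ 6 := by
      rw [Real.rpow_add hApos]
      congr 1
      exact_mod_cast Real.rpow_natCast A 6
    rw [h5, h6]
    refine mul_le_mul_of_nonneg_left ?_ (Real.rpow_nonneg hApos.le _)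
    have : (0 : ℝ) ≤ A ^ 5 := by positivity
    nlinarith
  have hcG : ∀ k, |(G.coeff k : ℝ)| ≤ A ^ (C + 6) := by
    intro k
    have h := hLAGA 3 (G.map (Int.castRingHom ℝ)) (K * X) A a
      ((natDegree_map_le).trans (hG.trans (by norm_num))) hsp1
      (fun i hi => by rw [eval_map_int]; exact (hval i hi).1) haA k
    rw [coeff_map] at h
    simp only [eq_intCast] at h
    refine h.trans (le_trans ?_ hpow)
    have h1 : K * X ≤ K * (X * (A + 1) + ε) := by
      refine mul_le_mul_of_nonneg_left ?_ hKpos.le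
      have : 0 ≤ X * A := by positivity
      nlinarith
    have h2 : (0 : ℝ) ≤ (1 + A) ^ 3 := by positivity
    push_cast
    have h3 := mul_le_mul_of_nonneg_right h1 h2
    linarith
  have hcF : ∀ k, |(F.coeff k : ℝ)| ≤ A ^ (C + 6) := by
    intro k
    have h := hLAGA 3 (F.map (Int.castRingHom ℝ)) (K * (X * (A + 1) + ε)) A a
      ((natDegree_map_le).trans hF) hsp1
      (fun i hi => by rw [eval_map_int]; exact (hval i hi).2.2) haA k
    rw [coeff_map] at h
    simp only [eq_intCast] at h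
    refine h.trans (le_trans (le_of_eq ?_) hpow)
    push_cast
    ring
  -- the bad points
  classical
  set T := (cut S u L).filter (fun x => A ^ (19 * s) < (Int.gcd (F.eval x) (G.eval x) : ℝ)) with hT
  have hL5 : A ^ (5 * s) ≤ L := by
    refine le_trans ?_ (hl.trans hlL)
    exact Real.rpow_le_rpow_of_exponent_le hAge1 (by linarith)
  have hTc : (T.card : ℝ) ≤ L * A ^ (-(2 * s)) := by
    refine hGc A hA1' F G hF (hG.trans (by norm_num)) hP hcF hcG u L T hL5 ?_ ?_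
    · intro x hx
      exact (mem_cut.1 (Finset.mem_filter.1 hx).1).2
    · intro x hx
      exact (Finset.mem_filter.1 hx).2
  have hsub : (cut S u L) \ T ⊆ gset K F G j p (cut S u L) := by
    intro x hx
    obtain ⟨hx1, hx2⟩ := Finset.mem_sdiff.1 hx
    rw [mem_gset]
    refine ⟨hx1, ?_⟩
    obtain ⟨g, hg0, hgG, hgF⟩ := hrel x hx1
    refine ⟨g, hg0, ?_, hgG, hgF⟩
    have h1 : ¬ (A ^ (19 * s) < (Int.gcd (F.eval x) (G.eval x) : ℝ)) := by
      intro h
      exact hx2 (Finset.mem_filter.2 ⟨hx1, h⟩)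
    have h2 := gcd_eq (g := g) (hD.hco _ (mem_cut.1 hx1).1)
    rw [← hgF, ← hgG] at h2
    have h3 : ((Int.gcd (F.eval x) (G.eval x) : ℕ) : ℝ) = |(g : ℝ)| := by
      have : (((Int.gcd (F.eval x) (G.eval x) : ℕ) : ℤ) : ℝ) = ((|g| : ℤ) : ℝ) := by rw [h2]
      simpa using this
    rw [h3] at h1
    exact not_lt.1 h1
  have hle : ((cut S u L).card : ℝ) ≤ (T.card : ℝ) + ((gset K F G j p (cut S u L)).card : ℝ) := by
    have h1 : (cut S u L).card ≤ T.card + ((cut S u L) \ T).card := by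
      have := Finset.card_sdiff_add_card (cut S u L) T
      have h2 : (cut S u L).card ≤ ((cut S u L) ∪ T).card := Finset.card_le_card Finset.subset_union_left
      omega
    have h3 := Finset.card_le_card hsub
    have h4 : (cut S u L).card ≤ T.card + (gset K F G j p (cut S u L)).card := by omega
    exact_mod_cast h4
  have hfin : L * A ^ (-(2 * s)) ≤ A ^ (-s) * L / 2 := by
    have h1 : A ^ (-(2 * s)) = A ^ (-s) * A ^ (-s) := by
      rw [← Real.rpow_add hApos]; congr 1; ring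
    have h2 : A ^ (-s) ≤ 1 / 2 := by
      rw [hAms]
      exact one_div_le_one_div_of_le (by norm_num) hAs2
    rw [h1]
    have h3 : 0 ≤ A ^ (-s) * L := by positivity
    nlinarith
  linarith

end Pool.Agent.UHI
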