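import Pool.Agent.UHI.Close
import Pool.Agent.UHI.Div
import Pool.Agent.UHI.Fin
import Pool.Agent.UHI.Gcd
import Pool.Agent.UHI.Init
import Pool.Agent.UHI.Inv
import Pool.Agent.UHI.Lag
import Pool.Agent.UHI.Nest
import Pool.Agent.UHI.Prim
import Pool.Agent.UHI.Res
import Pool.Agent.UHI.Sieg
import Pool.Agent.UHI.Spr
import Pool.Agent.UHI.Step
import Pool.Agent.UHI.Vdm

/-!
# The inverse theorem, assembled
-/

set_option autoImplicit false

namespace Pool.Agent.UHI

theorem gcd_closed : Stmt_GCD := m_GCD m_RES m_DIV m_CLOSE m_VDM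

theorem init_closed : Stmt_INIT := m_INIT m_SIEG m_PRIM gcd_closed m_SPR m_LAGA

theorem step_closed : Stmt_STEP := m_STEP gcd_closed m_SPR m_LAGV m_LAGA

theorem fin_closed : Stmt_FIN := m_FIN m_SPR m_LAGC

/-- The inverse theorem. -/
theorem inv : Stmt_INV := m_INV m_NEST init_closed step_closed fin_closed

end Pool.Agent.UHI
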