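import Mathlib

/-!
# Inverse theorem (block 1 of the lower bound 1/3 for the dimensions of MP_c538e3_nt)

`Stmt_INV`: if for a dense set `S` of integers `a` in `[A/2, A]` (`|S| >= A^(1-s)`) the number
`θ a + ρ` is within `ε / j_a` of a fraction `p_a / j_a` with denominator `j_a <= X`, where
`ε X^(4/3) A^(1/4) <= 1`, then the slope `θ` itself has a good rational approximation `p / j`,
coming with the value of a quadratic form.  Everything is elementary (polynomial method):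

* SIEG (pigeonhole): on a short interval there are integer polynomials `F` (degree 3), `G` (degree 2)
  with `F` close to `(θ x + ρ) G`, so that `j_a F(a) = p_a G(a)` for every `a` in `S` there;
* PRIM, RES, VDM, DIV, CLOSE, GCD: after division by the common factor, `gcd(F(a), G(a))` divides the
  resultant, which has few divisors; four close points with the same gcd `m` give `m | V` (`V` the
  Vandermonde product), so the gcd is `<= A^(19 s)` for most `a`;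
* SPR, LAGV, LAGA, LAGC: Lagrange interpolation on well spaced points;
* NEST, INIT, STEP: the relation propagates from the short interval to `[A/2, A]` (20 steps, no
  loss accumulates since the gcd bound is proved again on every interval);
* FIN: leading coefficients.
-/

namespace Pool.Agent.UHI

open Polynomial

/-- integral ternary quadratic form with coefficient vector `c` -/
def qf (c : Fin 6 → ℤ) (u v w : ℤ) : ℤ :=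
  c 0 * u ^ 2 + c 1 * v ^ 2 + c 2 * w ^ 2 + c 3 * (u * v) + c 4 * (u * w) + c 5 * (v * w)

/-- coprime over the rationals, and the coefficients of `F` and `G` have no common divisor -/
def Prim (F G : ℤ[X]) : Prop :=
  IsCoprime (F.map (Int.castRingHom ℚ)) (G.map (Int.castRingHom ℚ)) ∧
    ∀ m v : ℤ, (∀ k, m ∣ v * F.coeff k) → (∀ k, m ∣ v * G.coeff k) → m ∣ v

/-- the points `a` of `T` at which `(G(a), F(a)) = g (j_a, p_a)` with `0 < |g| <= K` -/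
noncomputable def gset (K : ℝ) (F G : ℤ[X]) (j p : ℤ → ℤ) (T : Finset ℤ) : Finset ℤ := by
  classical
  exact T.filter (fun a => ∃ g : ℤ, g ≠ 0 ∧ |(g : ℝ)| ≤ K ∧ G.eval a = g * j a ∧ F.eval a = g * p a)

/-- the part of `S` in the interval `[u, u + L]` -/
noncomputable def cut (S : Finset ℤ) (u L : ℝ) : Finset ℤ := by
  classical
  exact S.filter (fun a => u ≤ (a : ℝ) ∧ (a : ℝ) ≤ u + L)

/-- the data of the inverse theorem on the set `S` -/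
structure Dat (A s C θ ρ X ε : ℝ) (S : Finset ℤ) (j p : ℤ → ℤ) : Prop where
  hX1 : 1 ≤ X
  hXA : X ≤ A ^ C
  hε : 0 < ε
  hH : ε * X ^ (4 / 3 : ℝ) * A ^ (1 / 4 : ℝ) ≤ 1
  hθ0 : 0 ≤ θ
  hθ1 : θ ≤ 1
  hρ0 : 0 ≤ ρ
  hρ1 : ρ ≤ 1
  hS : ∀ a ∈ S, A / 2 ≤ (a : ℝ) ∧ (a : ℝ) ≤ A
  hcard : A ^ (1 - s) ≤ (S.card : ℝ)
  hj1 : ∀ a ∈ S, 1 ≤ j a
  hjX : ∀ a ∈ S, (j a : ℝ) ≤ X
  hap : ∀ a ∈ S, |(p a : ℝ) - j a * (θ * a + ρ)| ≤ ε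
  hco : ∀ a ∈ S, IsCoprime (j a) (p a)

/-- SIEG: pigeonhole on the triples `(g0, g1, g2)`, `0 <= g_i <= 1000 X^(4/3) L^(3-i)`: at least
`10^9 X^4 L^6` triples; the four numbers `ρ g0`, `θ g0 + ρ g1`, `θ g1 + ρ g2`, `θ g2` mod 1 in
`ceil(32 X L^i) <= 33 X L^i` boxes each: at most `33^4 X^4 L^6 < 10^9 X^4 L^6` boxes. -/
def Stmt_SIEG : Prop :=
  ∀ (X L θ ρ : ℝ), 1 ≤ X → 1 ≤ L →
    ∃ g0 g1 g2 f0 f1 f2 f3 : ℤ, (g0 ≠ 0 ∨ g1 ≠ 0 ∨ g2 ≠ 0) ∧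
      |(g0 : ℝ)| ≤ 1000 * X ^ (4 / 3 : ℝ) * L ^ 3 ∧
      |(g1 : ℝ)| ≤ 1000 * X ^ (4 / 3 : ℝ) * L ^ 2 ∧
      |(g2 : ℝ)| ≤ 1000 * X ^ (4 / 3 : ℝ) * L ∧
      |(f0 : ℝ) - ρ * g0| ≤ 1 / (32 * X) ∧
      |(f1 : ℝ) - (θ * g0 + ρ * g1)| ≤ 1 / (32 * X * L) ∧
      |(f2 : ℝ) - (θ * g1 + ρ * g2)| ≤ 1 / (32 * X * L ^ 2) ∧
      |(f3 : ℝ) - θ * g2| ≤ 1 / (32 * X * L ^ 3)

/-- VDM: four points, all values divisible by `m`: the Vandermonde product times every coefficient is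
divisible by `m` (adjugate of the Vandermonde matrix). -/
def Stmt_VDM : Prop :=
  ∀ (H : ℤ[X]) (m : ℤ) (a : Fin 4 → ℤ), H.natDegree ≤ 3 → (∀ i, m ∣ H.eval (a i)) →
    ∀ k, m ∣ (∏ i : Fin 4, ∏ l ∈ Finset.Ioi i, (a l - a i)) * H.coeff k

/-- RES: common divisors of the values divide one nonzero integer of controlled size
(`Polynomial.resultant`, `Polynomial.exists_mul_add_mul_eq_C_resultant`; the Sylvester matrix has size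
at most 6 and entries bounded by `B`). -/
def Stmt_RES : Prop :=
  ∀ (F G : ℤ[X]) (B : ℝ), F.natDegree ≤ 3 → G.natDegree ≤ 3 →
    IsCoprime (F.map (Int.castRingHom ℚ)) (G.map (Int.castRingHom ℚ)) → 1 ≤ B →
    (∀ k, |(F.coeff k : ℝ)| ≤ B) → (∀ k, |(G.coeff k : ℝ)| ≤ B) →
    ∃ R : ℕ, 1 ≤ R ∧ (R : ℝ) ≤ 720 * B ^ 6 ∧
      ∀ a d : ℤ, d ∣ F.eval a → d ∣ G.eval a → d ∣ (R : ℤ)

/-- DIV: the divisor bound in the form needed here. -/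
def Stmt_DIV : Prop :=
  ∀ (C s : ℝ), 0 < C → 0 < s → ∃ A0 : ℝ, 1 ≤ A0 ∧ ∀ A : ℝ, A0 ≤ A → ∀ R : ℕ, 1 ≤ R → (R : ℝ) ≤ A ^ C →
    ((Nat.divisors R).card : ℝ) ≤ A ^ s

/-- CLOSE: many integers in an interval: four of them are close together. -/
def Stmt_CLOSE : Prop :=
  ∀ (T : Finset ℤ) (u L w : ℝ), 0 ≤ L → 1 ≤ w → (∀ a ∈ T, u ≤ (a : ℝ) ∧ (a : ℝ) ≤ u + L) →
    3 * (L / w + 1) < (T.card : ℝ) →
    ∃ a : Fin 4 → ℤ, StrictMono a ∧ (∀ i, a i ∈ T) ∧ (a 3 : ℝ) - a 0 ≤ w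

/-- GCD: the gcd of `F(a)` and `G(a)` is at most `A^(19 s)` for most `a`. From RES, DIV (some value `m`
of the gcd is taken at least `L A^(-3s)` times), CLOSE with `w = 8 A^(3s)` and VDM
(`m` divides the Vandermonde product `<= w^6 = 8^6 A^(18 s) < A^(19 s)`). -/
def Stmt_GCD : Prop :=
  ∀ (C s : ℝ), 1 ≤ C → 0 < s → ∃ A0 : ℝ, 1 ≤ A0 ∧ ∀ A : ℝ, A0 ≤ A →
    ∀ (F G : ℤ[X]), F.natDegree ≤ 3 → G.natDegree ≤ 3 → Prim F G →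
      (∀ k, |(F.coeff k : ℝ)| ≤ A ^ C) → (∀ k, |(G.coeff k : ℝ)| ≤ A ^ C) →
      ∀ (u L : ℝ) (T : Finset ℤ), A ^ (5 * s) ≤ L → (∀ a ∈ T, u ≤ (a : ℝ) ∧ (a : ℝ) ≤ u + L) →
        (∀ a ∈ T, A ^ (19 * s) < (Int.gcd (F.eval a) (G.eval a) : ℝ)) →
        (T.card : ℝ) ≤ L * A ^ (-(2 * s))

/-- PRIM: division by the greatest common divisor in `ℤ[X]`. -/
def Stmt_PRIM : Prop :=
  ∀ (F0 G0 : ℤ[X]), G0 ≠ 0 → ∃ h F G : ℤ[X], h ≠ 0 ∧ F0 = h * F ∧ G0 = h * G ∧ Prim F G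

/-- SPR: well spaced points of a finite set of integers. -/
def Stmt_SPR : Prop :=
  ∀ (n m : ℕ) (T : Finset ℤ), n * m + 1 ≤ T.card →
    ∃ a : ℕ → ℤ, (∀ i ≤ n, a i ∈ T) ∧ ∀ i < n, a i + m ≤ a (i + 1)

/-- LAGV: Lagrange interpolation, values. -/
def Stmt_LAGV : Prop :=
  ∀ (n : ℕ) (H : ℝ[X]) (B m W x : ℝ) (a : ℕ → ℤ), H.natDegree ≤ n → 0 < m →
    (∀ i < n, (a i : ℝ) + m ≤ a (i + 1)) → (∀ i ≤ n, |H.eval (a i : ℝ)| ≤ B) →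
    (∀ i ≤ n, |x - a i| ≤ W) → |H.eval x| ≤ (n + 1) * B * (W / m) ^ n

/-- LAGC: Lagrange interpolation, coefficient of degree `n`. -/
def Stmt_LAGC : Prop :=
  ∀ (n : ℕ) (H : ℝ[X]) (B m : ℝ) (a : ℕ → ℤ), H.natDegree ≤ n → 0 < m →
    (∀ i < n, (a i : ℝ) + m ≤ a (i + 1)) → (∀ i ≤ n, |H.eval (a i : ℝ)| ≤ B) →
    |H.coeff n| ≤ (n + 1) * B / m ^ n

/-- LAGA: Lagrange interpolation, all coefficients (crude). -/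
def Stmt_LAGA : Prop :=
  ∀ (n : ℕ) (H : ℝ[X]) (B A : ℝ) (a : ℕ → ℤ), H.natDegree ≤ n →
    (∀ i < n, a i + 1 ≤ a (i + 1)) → (∀ i ≤ n, |H.eval (a i : ℝ)| ≤ B) → (∀ i ≤ n, |(a i : ℝ)| ≤ A) →
    ∀ k, |H.coeff k| ≤ (n + 1) * B * (1 + A) ^ n

/-- NEST: nested intervals on which the density does not drop. -/
def Stmt_NEST : Prop :=
  ∀ (S : Finset ℤ) (u L r : ℝ) (M : ℕ), 1 ≤ M → 0 ≤ L → (∀ a ∈ S, u ≤ (a : ℝ) ∧ (a : ℝ) ≤ u + L) →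
    r * L ≤ (S.card : ℝ) →
    ∃ v : ℕ → ℝ, v 0 = u ∧ ∀ k, v k ≤ v (k + 1) ∧ v (k + 1) + L / M ^ (k + 1) ≤ v k + L / M ^ k ∧
      r * (L / M ^ k) ≤ ((cut S (v k) (L / M ^ k)).card : ℝ)

/-- INIT: the relation on a short interval `[v, v + l]`. -/
def Stmt_INIT : Prop :=
  ∀ (C s : ℝ), 1 ≤ C → 0 < s → s ≤ 1 / 10000 → ∃ A0 : ℝ, 1 ≤ A0 ∧
    ∀ (A θ ρ X ε : ℝ) (S : Finset ℤ) (j p : ℤ → ℤ), A0 ≤ A → Dat A s C θ ρ X ε S j p →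
      ∀ v l : ℝ, A ^ (1 / 25 : ℝ) ≤ l → l ≤ A ^ (1 / 20 : ℝ) →
        A ^ (-s) * l ≤ ((cut S v l).card : ℝ) →
        ∃ F G : ℤ[X], F.natDegree ≤ 3 ∧ G.natDegree ≤ 2 ∧ Prim F G ∧
          A ^ (-s) * l / 2 ≤ ((gset (A ^ (19 * s)) F G j p (cut S v l)).card : ℝ)

/-- STEP: from `[v, v + l]` to `[u, u + L]`. -/
def Stmt_STEP : Prop :=
  ∀ (C s : ℝ), 1 ≤ C → 0 < s → s ≤ 1 / 10000 → ∃ A0 : ℝ, 1 ≤ A0 ∧
    ∀ (A θ ρ X ε : ℝ) (S : Finset ℤ) (j p : ℤ → ℤ), A0 ≤ A → Dat A s C θ ρ X ε S j p →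
      ∀ (F G : ℤ[X]), F.natDegree ≤ 3 → G.natDegree ≤ 2 → Prim F G →
      ∀ v l u L : ℝ, A ^ (1 / 25 : ℝ) ≤ l → u ≤ v → v + l ≤ u + L → L ≤ A ^ (1 / 15 : ℝ) * l →
        L ≤ A →
        A ^ (-s) * L ≤ ((cut S u L).card : ℝ) →
        A ^ (-s) * l / 2 ≤ ((gset (A ^ (19 * s)) F G j p (cut S v l)).card : ℝ) →
        A ^ (-s) * L / 2 ≤ ((gset (A ^ (19 * s)) F G j p (cut S u L)).card : ℝ)

/-- FIN: leading coefficients. -/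
def Stmt_FIN : Prop :=
  ∀ (C s : ℝ), 1 ≤ C → 0 < s → s ≤ 1 / 10000 → ∃ A0 : ℝ, 1 ≤ A0 ∧
    ∀ (A θ ρ X ε Δ : ℝ) (S : Finset ℤ) (j p : ℤ → ℤ) (c : Fin 6 → ℤ), A0 ≤ A →
      Dat A s C θ ρ X ε S j p →
      (∀ a ∈ S, |(qf c (j a) (a * j a) (p a) : ℝ)| ≤ Δ) →
      ∀ (F G : ℤ[X]), F.natDegree ≤ 3 → G.natDegree ≤ 2 → Prim F G →
        A ^ (1 - s) / 4 ≤ ((gset (A ^ (19 * s)) F G j p S).card : ℝ) →
        ∃ (d : ℕ) (j' p' : ℤ), d ≤ 2 ∧ j' ≠ 0 ∧ |(j' : ℝ)| ≤ X * A ^ (-(d : ℝ) + 60 * s) ∧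
          |(p' : ℝ) - j' * θ| ≤ ε * A ^ (-(d : ℝ) - 1 + 60 * s) ∧
          |(qf c 0 j' p' : ℝ)| ≤ Δ * A ^ (-2 * (d : ℝ) - 2 + 60 * s)

/-- INV01: the inverse theorem for `0 <= θ, ρ <= 1` and coprime `j_a, p_a`
(NEST with `M = ceil(A^(1/20))`, INIT on the 19th interval, STEP 19 times, FIN). -/
def Stmt_INV01 : Prop :=
  ∀ (C s : ℝ), 1 ≤ C → 0 < s → s ≤ 1 / 10000 → ∃ A0 : ℝ, 1 ≤ A0 ∧
    ∀ (A θ ρ X ε Δ : ℝ) (S : Finset ℤ) (j p : ℤ → ℤ) (c : Fin 6 → ℤ), A0 ≤ A →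
      Dat A s C θ ρ X ε S j p →
      (∀ a ∈ S, |(qf c (j a) (a * j a) (p a) : ℝ)| ≤ Δ) →
        ∃ (d : ℕ) (j' p' : ℤ), d ≤ 2 ∧ j' ≠ 0 ∧ |(j' : ℝ)| ≤ X * A ^ (-(d : ℝ) + 60 * s) ∧
          |(p' : ℝ) - j' * θ| ≤ ε * A ^ (-(d : ℝ) - 1 + 60 * s) ∧
          |(qf c 0 j' p' : ℝ)| ≤ Δ * A ^ (-2 * (d : ℝ) - 2 + 60 * s)

/-- THE INVERSE THEOREM. -/
def Stmt_INV : Prop :=
  ∀ (C s : ℝ), 1 ≤ C → 0 < s → s ≤ 1 / 10000 → ∃ A0 : ℝ, 1 ≤ A0 ∧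
    ∀ (A θ ρ X ε Δ : ℝ) (S : Finset ℤ) (j p : ℤ → ℤ) (c : Fin 6 → ℤ), A0 ≤ A →
      1 ≤ X → X ≤ A ^ C → 0 < ε → ε * X ^ (4 / 3 : ℝ) * A ^ (1 / 4 : ℝ) ≤ 1 →
      (∀ a ∈ S, A / 2 ≤ (a : ℝ) ∧ (a : ℝ) ≤ A) → A ^ (1 - s) ≤ (S.card : ℝ) →
      (∀ a ∈ S, 1 ≤ j a ∧ (j a : ℝ) ≤ X) →
      (∀ a ∈ S, |(p a : ℝ) - j a * (θ * a + ρ)| ≤ ε) →
      (∀ a ∈ S, |(qf c (j a) (a * j a) (p a) : ℝ)| ≤ Δ) →
        ∃ (d : ℕ) (j' p' : ℤ), d ≤ 2 ∧ 1 ≤ j' ∧ (j' : ℝ) ≤ X * A ^ (-(d : ℝ) + 60 * s) ∧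
          |(p' : ℝ) - j' * θ| ≤ ε * A ^ (-(d : ℝ) - 1 + 60 * s) ∧
          |(qf c 0 j' p' : ℝ)| ≤ Δ * A ^ (-2 * (d : ℝ) - 2 + 60 * s)

end Pool.Agent.UHI
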